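import Pool.Agent.N699.RG.Rep2
import Pool.Agent.N699.GC.PrimW

set_option autoImplicit false

/-! The inputs for the von Mangoldt function. -/

namespace Pool.Agent.N699.RG
open Finset
open Pool.Agent.H373R2.T7
open Pool.Agent.N699.RP
open Pool.Agent.N699.GC
open ArithmeticFunction (vonMangoldt)

lemma Icc_Ioc (X : ℕ) : Icc 1 X = Ioc 0 X := by
  ext m
  rw [mem_Icc, mem_Ioc]
  omega

lemma psi_sum (X : ℕ) : ∑ m ∈ Icc 1 X, vonMangoldt m ≤ 6 * X := by
  have h1 := Chebyshev.psi_le_const_mul_self (x := (X : ℝ)) (Nat.cast_nonneg X)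
  have h2 : Chebyshev.psi (X : ℝ) = ∑ m ∈ Icc 1 X, vonMangoldt m := by
    unfold Chebyshev.psi
    rw [Nat.floor_natCast, Icc_Ioc]
  rw [← h2]
  refine h1.trans (mul_le_mul_of_nonneg_right ?_ (Nat.cast_nonneg X))
  have h3 : Real.log 4 ≤ 2 := by
    rw [show (4 : ℝ) = 2 ^ 2 by norm_num, Real.log_pow]
    have := Real.log_two_lt_d9
    push_cast
    linarith
  linarith

lemma pp_sum (X : ℕ) (hX : 1 ≤ X) : ∑ m ∈ Icc 1 X, (if m.Prime then 0 else vonMangoldt m) ≤ 2 * Real.sqrt X * Real.log X := by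
  have e5 := Chebyshev.abs_psi_sub_theta_le_sqrt_mul_log (x := (X : ℝ)) (by exact_mod_cast hX)
  refine le_trans (le_of_eq ?_) ((le_abs_self _).trans e5)
  unfold Chebyshev.psi Chebyshev.theta
  rw [Nat.floor_natCast, sum_filter, ← sum_sub_distrib, Icc_Ioc]
  apply sum_congr rfl
  intro n _
  split_ifs with h
  · rw [ArithmeticFunction.vonMangoldt_apply_prime h, sub_self]
  · rw [sub_zero]

/-- `Λ ^ 2` against `Λ log N` -/
lemma log_dev (B : ℕ) (η : ℝ) (hη : 0 < η) : ∃ n0 : ℕ, ∀ N, n0 ≤ N →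
    ∑ m ∈ Icc 1 ((B + 1) * N), vonMangoldt m * |vonMangoldt m - Real.log N| ≤ η * (N * Real.log N) := by
  obtain ⟨b, hb⟩ : ∃ b : ℝ, b = (B : ℝ) + 1 := ⟨_, rfl⟩
  have hb0 : (0 : ℝ) ≤ B := Nat.cast_nonneg _
  have hb1 : 1 ≤ b := by rw [hb]; linarith
  have hlogb : 0 ≤ Real.log b := Real.log_nonneg hb1
  obtain ⟨n1, h1⟩ := ev_L' ((7 + 6 * b * Real.log b) * (2 / η) + Real.log b + 1)
  obtain ⟨n2, h2⟩ := loglog_small (6 * b) (η / 2) (by positivity)
  obtain ⟨n3, h3⟩ := log_small 4 (64 * b)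
  refine ⟨n1 + n2 + n3 + 1, fun N hN => ?_⟩
  have a1 := h1 N (by omega)
  have a2 := h2 N (by omega)
  have a3 := h3 N (by omega)
  have hN1 : 1 ≤ N := by omega
  have hN0 : (0 : ℝ) < N := by exact_mod_cast hN1
  obtain ⟨L, hL⟩ : ∃ L, L = Real.log (N : ℝ) := ⟨_, rfl⟩
  rw [← hL] at a1 a2 a3 ⊢
  have hq : 0 ≤ (7 + 6 * b * Real.log b) * (2 / η) := by positivity
  have hL1 : 1 ≤ L := by linarith
  have hL0 : 0 < L := by linarith
  have hLq : 7 + 6 * b * Real.log b ≤ η / 2 * L := by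
    have h5 : (7 + 6 * b * Real.log b) * (2 / η) ≤ L := by linarith
    rw [mul_div_assoc', div_le_iff₀ hη] at h5
    linarith
  have hlogL : 0 ≤ Real.log L := Real.log_nonneg hL1
  obtain ⟨X, hX⟩ : ∃ X, X = (B + 1) * N := ⟨_, rfl⟩
  have hX1 : 1 ≤ X := by rw [hX]; exact Nat.mul_pos (by omega) hN1
  have hXr : (X : ℝ) = b * N := by rw [hX, hb]; push_cast; ring
  have hlX : Real.log X = Real.log b + L := by rw [hXr, Real.log_mul (by positivity) hN0.ne', hL]
  have hlX2 : Real.log X ≤ 2 * L := by rw [hlX]; linarith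
  have hlX0 : 0 ≤ Real.log (X : ℝ) := Real.log_natCast_nonneg X
  rw [← hX]
  obtain ⟨y, hy⟩ : ∃ y, y = ⌊(N : ℝ) / L⌋₊ := ⟨_, rfl⟩
  have hyr : (y : ℝ) ≤ N / L := by rw [hy]; exact Nat.floor_le (by positivity)
  have hyN : y ≤ N := by
    have : (y : ℝ) ≤ N := hyr.trans (div_le_self hN0.le hL1)
    exact_mod_cast this
  have hyX : y ≤ X := hyN.trans (by rw [hX]; exact Nat.le_mul_of_pos_left _ (by omega))
  have hpt : ∀ m ∈ Icc 1 X, vonMangoldt m * |vonMangoldt m - L| ≤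
      (if m ≤ y then vonMangoldt m * L else 0) + vonMangoldt m * (Real.log L + Real.log b) +
        (if m.Prime then 0 else vonMangoldt m) * Real.log X := by
    intro m hm
    rw [mem_Icc] at hm
    have hm0 : (0 : ℝ) < m := by exact_mod_cast hm.1
    have g1 := ArithmeticFunction.vonMangoldt_nonneg (n := m)
    have g2 : vonMangoldt m ≤ Real.log m := ArithmeticFunction.vonMangoldt_le_log
    have g3 : 0 ≤ Real.log (m : ℝ) := Real.log_natCast_nonneg m
    have g4 : Real.log m ≤ Real.log X := Real.log_le_log hm0 (by exact_mod_cast hm.2)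
    have g5 : vonMangoldt m * |Real.log m - L| ≤ (if m ≤ y then vonMangoldt m * L else 0) + vonMangoldt m * (Real.log L + Real.log b) := by
      by_cases hmy : m ≤ y
      · rw [if_pos hmy]
        have k1 : Real.log m ≤ L := by
          rw [hL]
          exact Real.log_le_log hm0 (by exact_mod_cast hmy.trans hyN)
        have k2 : |Real.log m - L| ≤ L := by rw [abs_le]; constructor <;> linarith
        have k3 := mul_le_mul_of_nonneg_left k2 g1
        have k4 : 0 ≤ vonMangoldt m * (Real.log L + Real.log b) := by positivity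
        linarith
      · rw [if_neg hmy, zero_add]
        apply mul_le_mul_of_nonneg_left _ g1
        have k1 : (N : ℝ) / L < m := by
          rw [not_le, hy] at hmy
          exact (Nat.floor_lt (by positivity)).1 hmy
        have k2 : Real.log (N / L) ≤ Real.log m := Real.log_le_log (by positivity) k1.le
        rw [Real.log_div hN0.ne' hL0.ne', ← hL] at k2
        rw [abs_le]
        constructor <;> linarith
    by_cases hp : m.Prime
    · rw [if_pos hp, zero_mul, add_zero, ArithmeticFunction.vonMangoldt_apply_prime hp]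
      rw [ArithmeticFunction.vonMangoldt_apply_prime hp] at g5
      exact g5
    · rw [if_neg hp]
      have k1 : |vonMangoldt m - L| ≤ |Real.log m - L| + Real.log X := by
        have e1 : vonMangoldt m - L = (Real.log m - L) - (Real.log m - vonMangoldt m) := by ring
        rw [e1]
        refine (abs_sub _ _).trans (add_le_add le_rfl ?_)
        rw [abs_of_nonneg (by linarith)]
        linarith
      have k2 := mul_le_mul_of_nonneg_left k1 g1
      linarith
  refine (sum_le_sum hpt).trans ?_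
  rw [sum_add_distrib, sum_add_distrib, ← sum_mul, ← sum_mul, ← sum_filter]
  have s1 : ∑ m ∈ (Icc 1 X).filter (fun m => m ≤ y), vonMangoldt m * L ≤ 6 * N := by
    have e1 : (Icc 1 X).filter (fun m => m ≤ y) = Icc 1 y := by
      ext m
      rw [mem_filter, mem_Icc, mem_Icc]
      omega
    rw [e1, ← sum_mul]
    calc (∑ m ∈ Icc 1 y, vonMangoldt m) * L ≤ (6 * y) * L := mul_le_mul_of_nonneg_right (psi_sum y) hL0.le
      _ ≤ (6 * (N / L)) * L := by
          apply mul_le_mul_of_nonneg_right _ hL0.le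
          linarith
      _ = 6 * N := by field_simp
  have s2 : (∑ m ∈ Icc 1 X, vonMangoldt m) * (Real.log L + Real.log b) ≤ 6 * (b * N) * (Real.log L + Real.log b) := by
    apply mul_le_mul_of_nonneg_right _ (by positivity)
    rw [← hXr]
    exact psi_sum X
  have s3 : (∑ m ∈ Icc 1 X, (if m.Prime then 0 else vonMangoldt m)) * Real.log X ≤ N := by
    have e1 : Real.sqrt X ≤ N / (8 * L ^ 2) := by
      rw [Real.sqrt_le_left (by positivity), hXr, div_pow, le_div_iff₀ (by positivity)]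
      calc b * (N : ℝ) * (8 * L ^ 2) ^ 2 = (64 * b * L ^ 4) * (N : ℝ) := by ring
        _ ≤ (N : ℝ) * (N : ℝ) := mul_le_mul_of_nonneg_right a3 hN0.le
        _ = (N : ℝ) ^ 2 := by ring
    calc (∑ m ∈ Icc 1 X, (if m.Prime then 0 else vonMangoldt m)) * Real.log X ≤ (2 * Real.sqrt X * Real.log X) * Real.log X :=
          mul_le_mul_of_nonneg_right (pp_sum X hX1) hlX0
      _ ≤ (2 * (N / (8 * L ^ 2)) * (2 * L)) * (2 * L) := by
          apply mul_le_mul _ hlX2 hlX0 (by positivity)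
          apply mul_le_mul _ hlX2 hlX0 (by positivity)
          linarith
      _ = N := by
          field_simp
          norm_num
  have f1 : 6 * (b * N) * (Real.log L + Real.log b) = (6 * b * Real.log L + 6 * b * Real.log b) * N := by ring
  have f2 : (7 + 6 * b * Real.log b + 6 * b * Real.log L) * N ≤ (η / 2 * L + η / 2 * L) * N :=
    mul_le_mul_of_nonneg_right (by linarith) hN0.le
  calc _ ≤ 6 * (N : ℝ) + 6 * (b * N) * (Real.log L + Real.log b) + N := add_le_add (add_le_add s1 s2) s3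
    _ = (7 + 6 * b * Real.log b + 6 * b * Real.log L) * N := by rw [f1]; ring
    _ ≤ _ := f2
    _ = _ := by ring

/-- the sums over the translates -/
lemma shift_sum (N X : ℕ) (g : ℕ → ℝ) (hg : ∀ m, 0 ≤ g m) (u : ℕ) (hu : N + u ≤ X) :
    ∑ x ∈ Icc 1 N, g (x + u) ≤ ∑ m ∈ Icc 1 X, g m := by
  have e4 : ∑ x ∈ Icc 1 N, g (x + u) = ∑ n ∈ (Icc 1 N).map (addRightEmbedding u), g n := by
    rw [sum_map]
    rfl
  rw [e4, map_add_right_Icc]
  apply sum_le_sum_of_subset_of_nonneg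
  · intro n hn
    rw [mem_Icc] at hn ⊢
    omega
  · intro n _ _
    exact hg n

lemma shift_avg (N X : ℕ) (g : ℕ → ℝ) (hg : ∀ m, 0 ≤ g m) (Ω : Finset ℕ) (p : ℕ → ℝ) (hp : ∀ u ∈ Ω, 0 ≤ p u)
    (hp1 : ∑ u ∈ Ω, p u = 1) (hu : ∀ u ∈ Ω, N + u ≤ X) (T : ℝ) (hT : ∑ m ∈ Icc 1 X, g m ≤ T) :
    ∑ x ∈ Icc 1 N, ∑ u ∈ Ω, p u * g (x + u) ≤ T := by
  rw [sum_comm]
  calc ∑ u ∈ Ω, ∑ x ∈ Icc 1 N, p u * g (x + u) = ∑ u ∈ Ω, p u * ∑ x ∈ Icc 1 N, g (x + u) := sum_congr rfl fun u _ => (mul_sum _ _ _).symm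
    _ ≤ ∑ u ∈ Ω, p u * T := sum_le_sum fun u h => mul_le_mul_of_nonneg_left ((shift_sum N X g hg u (hu u h)).trans hT) (hp u h)
    _ = T := by rw [← sum_mul, hp1, one_mul]

/-- the hypotheses for the function `Λ - 1` -/
theorem hyp_lam (B E U : ℕ) (hU : 1 ≤ U) (η : ℝ) (hη : 0 < η) : ∃ n0 : ℕ, ∀ N, n0 ≤ N → ∀ (Ω : Finset ℕ) (p : ℕ → ℝ),
    Lz B E (2 * U + 2) N Ω p → Hyp N (fun m => vonMangoldt m - 1) (Real.log N) (2 * Real.log N) (1 / Real.log N ^ U) (η * Real.log N)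
      ((6 * ((B : ℝ) + 1) + 1) ^ 2) Ω p := by
  obtain ⟨b, hb⟩ : ∃ b : ℝ, b = (B : ℝ) + 1 := ⟨_, rfl⟩
  have hb0 : (0 : ℝ) ≤ B := Nat.cast_nonneg _
  have hb1 : 1 ≤ b := by rw [hb]; linarith
  have hlogb : 0 ≤ Real.log b := Real.log_nonneg hb1
  obtain ⟨n1, h1⟩ := lam_sq B E (2 * U)
  obtain ⟨n2, h2⟩ := log_dev B (η / 2) (by positivity)
  obtain ⟨n3, h3⟩ := ev_L' ((12 * b + 2) * (2 / η) + Real.log b + 1)
  refine ⟨n1 + n2 + n3 + 1, fun N hN Ω p hlaw => ?_⟩
  have a1 := h1 N (by omega) Ω p hlaw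
  have a2 := h2 N (by omega)
  have a3 := h3 N (by omega)
  obtain ⟨hp, hp1, hsize, -⟩ := hlaw
  have hN1 : 1 ≤ N := by omega
  have hN0 : (0 : ℝ) < N := by exact_mod_cast hN1
  obtain ⟨L, hL⟩ : ∃ L, L = Real.log (N : ℝ) := ⟨_, rfl⟩
  rw [← hL] at a1 a2 a3
  rw [← hb, ← hL]
  have hq : 0 ≤ (12 * b + 2) * (2 / η) := by positivity
  have hL1 : 1 ≤ L := by linarith
  have hL0 : 0 < L := by linarith
  have hLq : 12 * b + 2 ≤ η / 2 * L := by
    have h5 : (12 * b + 2) * (2 / η) ≤ L := by linarith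
    rw [mul_div_assoc', div_le_iff₀ hη] at h5
    linarith
  obtain ⟨X, hX⟩ : ∃ X, X = (B + 1) * N := ⟨_, rfl⟩
  have hX1 : 1 ≤ X := by rw [hX]; exact Nat.mul_pos (by omega) hN1
  have hXr : (X : ℝ) = b * N := by rw [hX, hb]; push_cast; ring
  have hlX : Real.log X = Real.log b + L := by rw [hXr, Real.log_mul (by positivity) hN0.ne', hL]
  have hlX2 : Real.log X ≤ 2 * L := by rw [hlX]; linarith
  rw [← hX] at a2
  have hNu : ∀ u ∈ Ω, N + u ≤ X := by
    intro u hu
    have := hsize u hu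
    rw [hX, add_mul, one_mul]
    omega
  have hcard : ∑ _x ∈ Icc 1 N, (1 : ℝ) = N := by
    rw [sum_const, Nat.card_Icc, Nat.add_sub_cancel, nsmul_eq_mul, mul_one]
  have hmean : ∑ x ∈ Icc 1 N, |∑ u ∈ Ω, p u * (vonMangoldt (x + u) - 1)| ≤ 1 / L ^ U * N := by
    have e1 : ∀ x, ∑ u ∈ Ω, p u * (vonMangoldt (x + u) - 1) = ∑ u ∈ Ω, p u * vonMangoldt (x + u) - 1 := by
      intro x
      simp only [mul_sub, mul_one, sum_sub_distrib]
      rw [hp1]
    simp only [e1]
    have e2 : (∑ x ∈ Icc 1 N, |∑ u ∈ Ω, p u * vonMangoldt (x + u) - 1|) ^ 2 ≤ (1 / L ^ U * N) ^ 2 := by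
      calc (∑ x ∈ Icc 1 N, |∑ u ∈ Ω, p u * vonMangoldt (x + u) - 1|) ^ 2 =
            (∑ x ∈ Icc 1 N, 1 * |∑ u ∈ Ω, p u * vonMangoldt (x + u) - 1|) ^ 2 := by simp only [one_mul]
        _ ≤ (∑ _x ∈ Icc 1 N, (1 : ℝ) ^ 2) * ∑ x ∈ Icc 1 N, |∑ u ∈ Ω, p u * vonMangoldt (x + u) - 1| ^ 2 :=
            sum_mul_sq_le_sq_mul_sq _ _ _
        _ ≤ N * (N / L ^ (2 * U)) := by
            rw [one_pow, hcard]
            exact mul_le_mul_of_nonneg_left a1 hN0.le
        _ = (1 / L ^ U * N) ^ 2 := by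
            rw [mul_comm 2 U, pow_mul]
            field_simp
    exact le_of_sq_le_sq e2 (by positivity)
  have hpsi : ∑ x ∈ Icc 1 N, ∑ u ∈ Ω, p u * vonMangoldt (x + u) ≤ 6 * (b * N) := by
    have k1 := psi_sum X
    rw [hXr] at k1
    exact shift_avg N X (fun m => vonMangoldt m) (fun m => ArithmeticFunction.vonMangoldt_nonneg) Ω p hp hp1 hNu _ k1
  refine ⟨hp, hp1, ?_, hmean, ?_, ?_⟩
  · intro x hx u hu
    have g1 := ArithmeticFunction.vonMangoldt_nonneg (n := x + u)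
    have g2 : vonMangoldt (x + u) ≤ Real.log ((x + u : ℕ) : ℝ) := ArithmeticFunction.vonMangoldt_le_log
    rw [mem_Icc] at hx
    have g3 : Real.log ((x + u : ℕ) : ℝ) ≤ Real.log X := by
      apply Real.log_le_log (by exact_mod_cast (by omega : 0 < x + u))
      have := hNu u hu
      exact_mod_cast (by omega : x + u ≤ X)
    rw [abs_le]
    constructor <;> linarith
  · have e1 : ∀ x ∈ Icc 1 N, |∑ u ∈ Ω, p u * (vonMangoldt (x + u) - 1) ^ 2 - L| ≤
        ∑ u ∈ Ω, p u * (vonMangoldt (x + u) * |vonMangoldt (x + u) - L|) + 2 * ∑ u ∈ Ω, p u * vonMangoldt (x + u) + 1 +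
          L * |∑ u ∈ Ω, p u * (vonMangoldt (x + u) - 1)| := by
      intro x _
      have e2 : ∑ u ∈ Ω, p u * (vonMangoldt (x + u) - 1) ^ 2 - L = ∑ u ∈ Ω, p u * (vonMangoldt (x + u) * (vonMangoldt (x + u) - L)) -
          2 * ∑ u ∈ Ω, p u * vonMangoldt (x + u) + 1 + L * ∑ u ∈ Ω, p u * (vonMangoldt (x + u) - 1) := by
        have k1 : L = L * ∑ u ∈ Ω, p u := by rw [hp1, mul_one]
        have k2 : (1 : ℝ) = ∑ u ∈ Ω, p u := hp1.symm
        calc ∑ u ∈ Ω, p u * (vonMangoldt (x + u) - 1) ^ 2 - L = ∑ u ∈ Ω, p u * (vonMangoldt (x + u) - 1) ^ 2 - L * ∑ u ∈ Ω, p u := by rw [hp1, mul_one]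
          _ = ∑ u ∈ Ω, p u * (vonMangoldt (x + u) * (vonMangoldt (x + u) - L)) -
          2 * ∑ u ∈ Ω, p u * vonMangoldt (x + u) + ∑ u ∈ Ω, p u + L * ∑ u ∈ Ω, p u * (vonMangoldt (x + u) - 1) := by
              simp only [mul_sum]
              rw [← sum_sub_distrib, ← sum_sub_distrib, ← sum_add_distrib, ← sum_add_distrib]
              exact sum_congr rfl fun u _ => by ring
          _ = _ := by rw [hp1]
      rw [e2]
      have k1 : |∑ u ∈ Ω, p u * (vonMangoldt (x + u) * (vonMangoldt (x + u) - L))| ≤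
          ∑ u ∈ Ω, p u * (vonMangoldt (x + u) * |vonMangoldt (x + u) - L|) := by
        refine (abs_sum_le_sum_abs _ _).trans (sum_le_sum fun u hu => ?_)
        rw [abs_mul, abs_mul, abs_of_nonneg (hp u hu), abs_of_nonneg ArithmeticFunction.vonMangoldt_nonneg]
      have k2 : 0 ≤ ∑ u ∈ Ω, p u * vonMangoldt (x + u) := sum_nonneg fun u hu => mul_nonneg (hp u hu) ArithmeticFunction.vonMangoldt_nonneg
      refine (abs_add_le _ _).trans (add_le_add ?_ (le_of_eq ?_))
      · refine (abs_add_le _ _).trans (add_le_add ?_ (le_of_eq abs_one))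
        refine (abs_sub _ _).trans (add_le_add k1 (le_of_eq ?_))
        rw [abs_of_nonneg (by positivity)]
      · rw [abs_mul, abs_of_pos hL0]
    refine (sum_le_sum e1).trans ?_
    rw [sum_add_distrib, sum_add_distrib, sum_add_distrib, ← mul_sum, ← mul_sum, hcard]
    have k1 : ∑ x ∈ Icc 1 N, ∑ u ∈ Ω, p u * (vonMangoldt (x + u) * |vonMangoldt (x + u) - L|) ≤ η / 2 * (N * L) :=
      shift_avg N X (fun m => vonMangoldt m * |vonMangoldt m - L|)
        (fun m => mul_nonneg ArithmeticFunction.vonMangoldt_nonneg (abs_nonneg _)) Ω p hp hp1 hNu _ a2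
    have k2 : L * ∑ x ∈ Icc 1 N, |∑ u ∈ Ω, p u * (vonMangoldt (x + u) - 1)| ≤ N := by
      calc L * ∑ x ∈ Icc 1 N, |∑ u ∈ Ω, p u * (vonMangoldt (x + u) - 1)| ≤ L * (1 / L ^ U * N) := mul_le_mul_of_nonneg_left hmean hL0.le
        _ ≤ L * (1 / L * N) := by
            apply mul_le_mul_of_nonneg_left _ hL0.le
            apply mul_le_mul_of_nonneg_right _ hN0.le
            apply one_div_le_one_div_of_le hL0
            calc L = L ^ 1 := (pow_one L).symm
              _ ≤ L ^ U := pow_le_pow_right₀ hL1 hU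
        _ = N := by field_simp
    have k3 : (12 * b + 2) * N ≤ (η / 2 * L) * N := mul_le_mul_of_nonneg_right hLq hN0.le
    linarith
  · have e1 : ∀ x ∈ Icc 1 N, ∀ y ∈ Icc 1 N, |∑ u ∈ Ω, p u * ((vonMangoldt (x + u) - 1) * (vonMangoldt (y + u) - 1))| ≤
        ∑ u ∈ Ω, p u * ((vonMangoldt (x + u) + 1) * (vonMangoldt (y + u) + 1)) := by
      intro x _ y _
      refine (abs_sum_le_sum_abs _ _).trans (sum_le_sum fun u hu => ?_)
      rw [abs_mul, abs_mul, abs_of_nonneg (hp u hu)]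
      apply mul_le_mul_of_nonneg_left _ (hp u hu)
      have g1 := ArithmeticFunction.vonMangoldt_nonneg (n := x + u)
      have g2 := ArithmeticFunction.vonMangoldt_nonneg (n := y + u)
      apply mul_le_mul _ _ (abs_nonneg _) (by positivity)
      · rw [abs_le]; constructor <;> linarith
      · rw [abs_le]; constructor <;> linarith
    refine (sum_le_sum fun x hx => sum_le_sum fun y hy => e1 x hx y hy).trans ?_
    have e2 : ∑ x ∈ Icc 1 N, ∑ y ∈ Icc 1 N, ∑ u ∈ Ω, p u * ((vonMangoldt (x + u) + 1) * (vonMangoldt (y + u) + 1)) =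
        ∑ u ∈ Ω, p u * (∑ x ∈ Icc 1 N, (vonMangoldt (x + u) + 1)) ^ 2 := by
      rw [sum_congr rfl fun x _ => sum_comm, sum_comm]
      apply sum_congr rfl
      intro u _
      rw [sq, sum_mul_sum, mul_sum]
      apply sum_congr rfl
      intro x _
      rw [mul_sum]
    rw [e2]
    calc ∑ u ∈ Ω, p u * (∑ x ∈ Icc 1 N, (vonMangoldt (x + u) + 1)) ^ 2 ≤ ∑ u ∈ Ω, p u * ((6 * b + 1) * N) ^ 2 := by
          apply sum_le_sum
          intro u hu
          apply mul_le_mul_of_nonneg_left _ (hp u hu)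
          apply pow_le_pow_left₀
          · apply sum_nonneg
            intro x _
            have g1 := ArithmeticFunction.vonMangoldt_nonneg (n := x + u)
            linarith
          · rw [sum_add_distrib, hcard]
            have k1 := shift_sum N X vonMangoldt (fun m => ArithmeticFunction.vonMangoldt_nonneg) u (hNu u hu)
            have k2 := psi_sum X
            rw [hXr] at k2
            linarith
      _ = (6 * b + 1) ^ 2 * N ^ 2 := by
          rw [← sum_mul, hp1]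
          ring

end Pool.Agent.N699.RG
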