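import Pool.Agent.N699.RG.Rep2

set_option autoImplicit false

/-! The size of the error of the replica bound. -/

namespace Pool.Agent.N699.RG
open Finset

lemma small_PP (Ξ θ C c L η ξ : ℝ) (n A : ℕ) (hΞ : 0 ≤ Ξ) (hθ : 0 < θ) (hC : 0 ≤ C) (hη : 0 < η) (hη1 : η ≤ 1) (hη2 : 16 * Ξ ^ 2 * η ≤ θ ^ 2)
    (hc : 1 ≤ c) (hc2 : 44 * Ξ ^ 3 ≤ c * θ ^ 2) (hL : 1 ≤ L) (hL1 : 16 * Ξ ≤ θ ^ 2 * L) (hL2 : 16 * Ξ ^ 2 * C ≤ θ ^ 2 * L)
    (hL3 : 4 * Ξ ^ 4 ≤ θ ^ 2 * L) (hn : c ^ 2 * L ≤ n) (hnA : (n : ℝ) ≤ L ^ A) (hξ : |ξ| ≤ Ξ) :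
    2 * n * PP L (2 * L) (1 / L ^ (A + 1)) (η * L) C (ξ / Real.sqrt (n * L)) ≤ θ ^ 2 := by
  have hL0 : 0 < L := by linarith
  have hc0 : 0 < c := by linarith
  have hc21 : 1 ≤ c ^ 2 := one_le_pow₀ hc
  have hnL : L ≤ n := by nlinarith
  have hn0 : (0 : ℝ) < n := by linarith
  obtain ⟨σ, hσ⟩ : ∃ σ, σ = Real.sqrt (n * L) := ⟨_, rfl⟩
  have hσ2 : σ ^ 2 = n * L := by rw [hσ, Real.sq_sqrt (by positivity)]
  have hσ0 : 0 < σ := by rw [hσ]; exact Real.sqrt_pos.2 (by positivity)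
  have hσc : c * L ≤ σ := by
    rw [hσ]
    apply Real.le_sqrt_of_sq_le
    calc (c * L) ^ 2 = (c ^ 2 * L) * L := by ring
      _ ≤ n * L := mul_le_mul_of_nonneg_right hn hL0.le
  have hσ1 : 1 ≤ σ := by nlinarith
  rw [← hσ]
  obtain ⟨τ, hτ⟩ : ∃ τ, τ = ξ / σ := ⟨_, rfl⟩
  rw [← hτ]
  have hτ2 : n * L * τ ^ 2 = ξ ^ 2 := by
    rw [hτ, div_pow, hσ2]
    field_simp
  have hτa : |τ| = |ξ| / σ := by rw [hτ, abs_div, abs_of_pos hσ0]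
  have hτ1 : |τ| ≤ Ξ := by
    rw [hτa, div_le_iff₀ hσ0]
    nlinarith [abs_nonneg ξ]
  have hτc : L * |τ| ≤ Ξ / c := by
    rw [hτa, mul_div_assoc', div_le_div_iff₀ hσ0 hc0]
    calc L * |ξ| * c = |ξ| * (c * L) := by ring
      _ ≤ Ξ * σ := mul_le_mul hξ hσc (by positivity) hΞ
  have hξ2 : ξ ^ 2 ≤ Ξ ^ 2 := by
    rw [← sq_abs]
    exact pow_le_pow_left₀ (abs_nonneg _) hξ 2
  have t1 : 4 * |τ| * (n * (1 / L ^ (A + 1))) ≤ θ ^ 2 / 4 := by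
    have e1 : n * (1 / L ^ (A + 1)) ≤ 1 / L := by
      rw [pow_succ, mul_one_div, div_le_div_iff₀ (by positivity) hL0]
      nlinarith
    calc 4 * |τ| * (n * (1 / L ^ (A + 1))) ≤ 4 * Ξ * (1 / L) := by
          apply mul_le_mul _ e1 (by positivity) (by positivity)
          linarith
      _ = 4 * Ξ / L := by ring
      _ ≤ θ ^ 2 / 4 := by
          rw [div_le_div_iff₀ hL0 (by norm_num)]
          linarith
  have t2 : 2 * ξ ^ 2 * (η + C / L) ≤ θ ^ 2 / 4 := by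
    calc 2 * ξ ^ 2 * (η + C / L) ≤ 2 * Ξ ^ 2 * (η + C / L) := by
          apply mul_le_mul_of_nonneg_right _ (by positivity)
          linarith
      _ = 2 * Ξ ^ 2 * η + 2 * Ξ ^ 2 * C / L := by ring
      _ ≤ θ ^ 2 / 8 + θ ^ 2 / 8 := by
          apply add_le_add
          · linarith
          · rw [div_le_div_iff₀ hL0 (by norm_num)]
            linarith
      _ = θ ^ 2 / 4 := by ring
  have t3 : 16 / 3 * (1 + η) * ξ ^ 2 * (L * |τ|) ≤ θ ^ 2 / 4 := by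
    calc 16 / 3 * (1 + η) * ξ ^ 2 * (L * |τ|) ≤ 16 / 3 * (1 + 1) * Ξ ^ 2 * (Ξ / c) := by
          apply mul_le_mul _ hτc (by positivity) (by positivity)
          apply mul_le_mul _ hξ2 (by positivity) (by positivity)
          linarith
      _ = 32 / 3 * Ξ ^ 3 / c := by ring
      _ ≤ θ ^ 2 / 4 := by
          rw [div_le_div_iff₀ hc0 (by norm_num)]
          have : 0 ≤ Ξ ^ 3 := by positivity
          linarith
  have t4 : (ξ ^ 2) ^ 2 / n ≤ θ ^ 2 / 4 := by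
    calc (ξ ^ 2) ^ 2 / n ≤ (Ξ ^ 2) ^ 2 / L := by
          apply div_le_div₀ (by positivity) (pow_le_pow_left₀ (by positivity) hξ2 2) hL0 hnL
      _ = Ξ ^ 4 / L := by ring
      _ ≤ θ ^ 2 / 4 := by
          rw [div_le_div_iff₀ hL0 (by norm_num)]
          linarith
  have hkey : 2 * n * PP L (2 * L) (1 / L ^ (A + 1)) (η * L) C τ =
      4 * |τ| * (n * (1 / L ^ (A + 1))) + 2 * ξ ^ 2 * (η + C / L) + 16 / 3 * (1 + η) * ξ ^ 2 * (L * |τ|) + (ξ ^ 2) ^ 2 / n := by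
    unfold PP
    rw [← hτ2, show |τ| ^ 3 = |τ| ^ 2 * |τ| by ring, sq_abs]
    field_simp
    ring
  rw [hkey]
  linarith

end Pool.Agent.N699.RG
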