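import Pool.Agent.N699.RG.Rep2
import Pool.Agent.N699.GL.Thm

set_option autoImplicit false

/-! The variance, the grid of frequencies, and the distribution function. -/

namespace Pool.Agent.N699.RG
open Finset MeasureTheory
open Pool.Agent.N699.GL
open Pool.Agent.W93.TD (avg_w total_w)
open Pool.Agent.N916.ND (law law_apply law_prob law_charFun)
open Pool.Agent.N786.E (Phi cdf_close)

variable {n : ℕ}

/-- the second moment of a sum of independent variables -/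
lemma second_moment (Ω : Fin n → Finset ℕ) (p : Fin n → ℕ → ℝ) (hp : ∀ i, ∀ u ∈ Ω i, 0 ≤ p i u) (hp1 : ∀ i, ∑ u ∈ Ω i, p i u = 1)
    (g : Fin n → ℕ → ℝ) (K : ℝ) (hK : ∀ i, ∀ u ∈ Ω i, |g i u| ≤ K) :
    ∑ v ∈ Fintype.piFinset Ω, (∏ i, p i (v i)) * (∑ i, g i (v i)) ^ 2 ≤
      ∑ i, ∑ u ∈ Ω i, p i u * g i u ^ 2 + n * (K * ∑ i, |∑ u ∈ Ω i, p i u * g i u|) := by
  have h0 : ∀ v ∈ Fintype.piFinset Ω, 0 ≤ ∏ i, p i (v i) := fun v hv => prod_nonneg fun j _ => hp j _ (Fintype.mem_piFinset.1 hv j)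
  have h1 : ∑ v ∈ Fintype.piFinset Ω, (∏ i, p i (v i)) * (∑ i, g i (v i)) ^ 2 =
      ∑ i, ∑ j, ∑ v ∈ Fintype.piFinset Ω, (∏ i, p i (v i)) * (g i (v i) * g j (v j)) := by
    have e1 : ∀ v ∈ Fintype.piFinset Ω, (∏ i, p i (v i)) * (∑ i, g i (v i)) ^ 2 =
        ∑ i, ∑ j, (∏ i, p i (v i)) * (g i (v i) * g j (v j)) := by
      intro v _
      rw [sq, sum_mul_sum, mul_sum]
      apply sum_congr rfl
      intro i _
      rw [mul_sum]
    rw [sum_congr rfl e1, sum_comm]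
    apply sum_congr rfl
    intro i _
    rw [sum_comm]
  rw [h1]
  have h2 : ∀ i j, ∑ v ∈ Fintype.piFinset Ω, (∏ i, p i (v i)) * (g i (v i) * g j (v j)) ≤
      (if j = i then ∑ u ∈ Ω i, p i u * g i u ^ 2 else 0) + K * |∑ u ∈ Ω i, p i u * g i u| := by
    intro i j
    have hne : (Ω i).Nonempty := by
      rw [nonempty_iff_ne_empty]
      intro h3
      have := hp1 i
      rw [h3, sum_empty] at this
      norm_num at this
    have hK0 : 0 ≤ K := by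
      obtain ⟨u, hu⟩ := hne
      exact (abs_nonneg _).trans (hK i u hu)
    rw [← avg_w Ω p hp1 i (fun v => g i (v i) * g j (v j))]
    by_cases hij : j = i
    · rw [if_pos hij]
      have e1 : ∀ v ∈ Fintype.piFinset Ω, (∏ i, p i (v i)) * ∑ u ∈ Ω i, p i u * (g i (Function.update v i u i) * g j (Function.update v i u j)) =
          (∏ i, p i (v i)) * ∑ u ∈ Ω i, p i u * g i u ^ 2 := by
        intro v _
        congr 1
        apply sum_congr rfl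
        intro u _
        rw [hij, Function.update_self]
        ring
      rw [sum_congr rfl e1, ← sum_mul, total_w Ω p hp1, one_mul]
      have : 0 ≤ K * |∑ u ∈ Ω i, p i u * g i u| := by positivity
      linarith
    · rw [if_neg hij, zero_add]
      have e1 : ∀ v ∈ Fintype.piFinset Ω, (∏ i, p i (v i)) * ∑ u ∈ Ω i, p i u * (g i (Function.update v i u i) * g j (Function.update v i u j)) ≤
          (∏ i, p i (v i)) * (K * |∑ u ∈ Ω i, p i u * g i u|) := by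
        intro v hv
        apply mul_le_mul_of_nonneg_left _ (h0 v hv)
        have e2 : ∑ u ∈ Ω i, p i u * (g i (Function.update v i u i) * g j (Function.update v i u j)) = g j (v j) * ∑ u ∈ Ω i, p i u * g i u := by
          rw [mul_sum]
          apply sum_congr rfl
          intro u _
          rw [Function.update_self, Function.update_of_ne hij]
          ring
        rw [e2]
        refine (le_abs_self _).trans ?_
        rw [abs_mul]
        exact mul_le_mul_of_nonneg_right (hK j _ (Fintype.mem_piFinset.1 hv j)) (abs_nonneg _)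
      refine (sum_le_sum e1).trans (le_of_eq ?_)
      rw [← sum_mul, total_w Ω p hp1, one_mul]
  refine (sum_le_sum fun i _ => sum_le_sum fun j _ => h2 i j).trans (le_of_eq ?_)
  simp only [sum_add_distrib, sum_ite_eq', mem_univ, if_true, sum_const, card_univ, Fintype.card_fin, nsmul_eq_mul]
  rw [← mul_sum, ← mul_sum]

/-- the variance -/
noncomputable def V (N : ℕ) (f : ℕ → ℝ) (v : Fin n → ℕ) : ℝ := (∑ x ∈ Icc 1 N, (∑ i, f (x + v i)) ^ 2) / N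

variable {N : ℕ} {f : ℕ → ℝ} {s K M1 M2 M3 : ℝ}

lemma V_nonneg (v : Fin n → ℕ) : 0 ≤ V N f v := by
  unfold V
  positivity

lemma mean_V (hN : 1 ≤ N) (Ω : Fin n → Finset ℕ) (p : Fin n → ℕ → ℝ) (h : ∀ i, Hyp N f s K M1 M2 M3 (Ω i) (p i)) (hK0 : 0 ≤ K) :
    ∑ v ∈ Fintype.piFinset Ω, (∏ i, p i (v i)) * V N f v ≤ n * (s + M2) + n ^ 2 * (K * M1) := by
  have hN0 : (0 : ℝ) < N := by exact_mod_cast hN
  have h1 : ∑ v ∈ Fintype.piFinset Ω, (∏ i, p i (v i)) * V N f v =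
      (∑ x ∈ Icc 1 N, ∑ v ∈ Fintype.piFinset Ω, (∏ i, p i (v i)) * (∑ i, f (x + v i)) ^ 2) / N := by
    unfold V
    rw [sum_comm, sum_div]
    apply sum_congr rfl
    intro v _
    rw [← mul_sum, mul_div_assoc]
  rw [h1, div_le_iff₀ hN0]
  have h2 : ∀ x ∈ Icc 1 N, ∑ v ∈ Fintype.piFinset Ω, (∏ i, p i (v i)) * (∑ i, f (x + v i)) ^ 2 ≤
      ∑ i, (s + |∑ u ∈ Ω i, p i u * f (x + u) ^ 2 - s|) + n * (K * ∑ i, |∑ u ∈ Ω i, p i u * f (x + u)|) := by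
    intro x hx
    refine (second_moment Ω p (fun i => (h i).nonneg) (fun i => (h i).sum1) (fun _ u => f (x + u)) K (fun i => (h i).bd x hx)).trans ?_
    apply add_le_add _ le_rfl
    apply sum_le_sum
    intro i _
    linarith [le_abs_self (∑ u ∈ Ω i, p i u * f (x + u) ^ 2 - s)]
  refine (sum_le_sum h2).trans ?_
  rw [sum_add_distrib, ← mul_sum, ← mul_sum, sum_comm, sum_comm (s := Icc 1 N) (t := univ)]
  have h3 : ∑ i, ∑ x ∈ Icc 1 N, (s + |∑ u ∈ Ω i, p i u * f (x + u) ^ 2 - s|) ≤ ∑ _i : Fin n, (N * (s + M2)) := by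
    apply sum_le_sum
    intro i _
    rw [sum_add_distrib, sum_const, Nat.card_Icc, Nat.add_sub_cancel, nsmul_eq_mul]
    have := (h i).h2
    linarith
  have h4 : ∑ i, ∑ x ∈ Icc 1 N, |∑ u ∈ Ω i, p i u * f (x + u)| ≤ ∑ _i : Fin n, (M1 * N) :=
    sum_le_sum fun i _ => (h i).h1
  rw [sum_const, card_univ, Fintype.card_fin, nsmul_eq_mul] at h3 h4
  have h5 : n * (K * ∑ i, ∑ x ∈ Icc 1 N, |∑ u ∈ Ω i, p i u * f (x + u)|) ≤ n * (K * (n * (M1 * N))) := by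
    apply mul_le_mul_of_nonneg_left _ (Nat.cast_nonneg _)
    exact mul_le_mul_of_nonneg_left h4 hK0
  calc _ ≤ n * (N * (s + M2)) + n * (K * (n * (M1 * N))) := add_le_add h3 h5
    _ = _ := by ring

/-- the variance from below by the characteristic function -/
lemma V_lower (hN : 1 ≤ N) (v : Fin n → ℕ) (τ y : ℝ) (hy : 0 ≤ y) :
    y - y ^ 2 / 2 - ‖cf N f τ v - ((Real.exp (-y) : ℝ) : ℂ)‖ ≤ τ ^ 2 * V N f v / 2 := by
  have hN0 : (0 : ℝ) < N := by exact_mod_cast hN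
  obtain ⟨S, hS⟩ : ∃ S : ℕ → ℝ, S = fun x => ∑ i, f (x + v i) := ⟨_, rfl⟩
  have h1 : (cf N f τ v).re = (∑ x ∈ Icc 1 N, Real.cos (τ * S x)) / N := by
    unfold cf avC
    rw [Nat.card_Icc, Nat.add_sub_cancel, Complex.div_natCast_re, Complex.re_sum]
    congr 1
    apply sum_congr rfl
    intro x _
    rw [Complex.exp_ofReal_mul_I_re, hS]
  have h2 : 1 - (cf N f τ v).re ≤ τ ^ 2 * V N f v / 2 := by
    rw [h1]
    unfold V
    have e1 : ∀ x ∈ Icc 1 N, 1 - Real.cos (τ * S x) ≤ τ ^ 2 / 2 * S x ^ 2 := by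
      intro x _
      have := Real.one_sub_sq_div_two_le_cos (x := τ * S x)
      nlinarith
    have e2 := sum_le_sum e1
    rw [sum_sub_distrib, sum_const, Nat.card_Icc, Nat.add_sub_cancel, nsmul_eq_mul, mul_one, ← mul_sum] at e2
    have e3 := div_le_div_of_nonneg_right e2 hN0.le
    rw [sub_div, div_self hN0.ne'] at e3
    refine e3.trans (le_of_eq ?_)
    rw [hS]
    ring
  have h3 := exp_neg_two y hy
  have h4 := Complex.abs_re_le_norm (cf N f τ v - ((Real.exp (-y) : ℝ) : ℂ))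
  rw [Complex.sub_re, Complex.ofReal_re] at h4
  obtain ⟨g1, g2⟩ := abs_le.1 h3
  obtain ⟨g3, g4⟩ := abs_le.1 h4
  linarith

/-- the expected deviation of the variance -/
lemma dev_V (hN : 1 ≤ N) (Ω : Fin n → Finset ℕ) (p : Fin n → ℕ → ℝ) (h : ∀ i, Hyp N f s K M1 M2 M3 (Ω i) (p i)) (σ2 : ℝ)
    (hσ : 0 < σ2) (τ y : ℝ) (hy : 0 < y) (hτ : τ ^ 2 * σ2 = 2 * y) (η θ : ℝ)
    (hV : ∑ v ∈ Fintype.piFinset Ω, (∏ i, p i (v i)) * V N f v ≤ σ2 * (1 + η))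
    (hd : ∑ v ∈ Fintype.piFinset Ω, (∏ i, p i (v i)) * ‖cf N f τ v - ((Real.exp (-y) : ℝ) : ℂ)‖ ≤ θ) :
    ∑ v ∈ Fintype.piFinset Ω, (∏ i, p i (v i)) * |V N f v / σ2 - 1| ≤ η + y + 2 * θ / y := by
  have h0 : ∀ v ∈ Fintype.piFinset Ω, 0 ≤ ∏ i, p i (v i) := fun v hv => prod_nonneg fun j _ => (h j).nonneg _ (Fintype.mem_piFinset.1 hv j)
  have hp1 : ∀ i, ∑ u ∈ Ω i, p i u = 1 := fun i => (h i).sum1
  have h1 : ∀ v ∈ Fintype.piFinset Ω, (∏ i, p i (v i)) * |V N f v / σ2 - 1| ≤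
      (∏ i, p i (v i)) * V N f v / σ2 + (y - 1) * (∏ i, p i (v i)) + 2 / y * ((∏ i, p i (v i)) * ‖cf N f τ v - ((Real.exp (-y) : ℝ) : ℂ)‖) := by
    intro v hv
    obtain ⟨d, hd'⟩ : ∃ d, d = ‖cf N f τ v - ((Real.exp (-y) : ℝ) : ℂ)‖ := ⟨_, rfl⟩
    obtain ⟨R, hR⟩ : ∃ R, R = V N f v / σ2 := ⟨_, rfl⟩
    have e1 := V_lower (f := f) hN v τ y hy.le
    rw [← hd'] at e1 ⊢
    have e2 : τ ^ 2 * V N f v / 2 = y * R := by
      have : V N f v = R * σ2 := by rw [hR, div_mul_cancel₀ _ hσ.ne']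
      rw [this, show τ ^ 2 * (R * σ2) / 2 = (τ ^ 2 * σ2) * R / 2 by ring, hτ]
      ring
    rw [e2] at e1
    have hd0 : 0 ≤ d := by rw [hd']; exact norm_nonneg _
    have hdy : 0 ≤ d / y := by positivity
    have e3 : 1 - y / 2 - d / y ≤ R := by
      have e4 : y * (1 - y / 2 - d / y) ≤ y * R := by
        have : y * (1 - y / 2 - d / y) = y - y ^ 2 / 2 - d := by field_simp
        rw [this]
        exact e1
      exact le_of_mul_le_mul_left e4 hy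
    have e5 : |R - 1| ≤ R + (y - 1) + 2 / y * d := by
      have : 2 / y * d = 2 * (d / y) := by ring
      rw [this, abs_le]
      constructor <;> linarith
    have e6 := mul_le_mul_of_nonneg_left e5 (h0 v hv)
    rw [← hR]
    refine e6.trans (le_of_eq ?_)
    rw [hR]
    ring
  refine (sum_le_sum h1).trans ?_
  rw [sum_add_distrib, sum_add_distrib, ← sum_div, ← mul_sum, ← mul_sum, total_w Ω p hp1, mul_one]
  have e1 : (∑ v ∈ Fintype.piFinset Ω, (∏ i, p i (v i)) * V N f v) / σ2 ≤ 1 + η := by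
    rw [div_le_iff₀ hσ]
    linarith
  have e2 : 2 / y * ∑ v ∈ Fintype.piFinset Ω, (∏ i, p i (v i)) * ‖cf N f τ v - ((Real.exp (-y) : ℝ) : ℂ)‖ ≤ 2 / y * θ :=
    mul_le_mul_of_nonneg_left hd (by positivity)
  have e3 : 2 / y * θ = 2 * θ / y := by ring
  linarith

lemma exp_lip (a b : ℝ) (ha : 0 ≤ a) (hb : 0 ≤ b) : |Real.exp (-a) - Real.exp (-b)| ≤ |a - b| := by
  wlog hab : a ≤ b generalizing a b with H
  · rw [abs_sub_comm, abs_sub_comm a]
    exact H b a hb ha (le_of_not_ge hab)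
  have h1 := Real.add_one_le_exp (-(b - a))
  have h2 : Real.exp (-b) = Real.exp (-a) * Real.exp (-(b - a)) := by rw [← Real.exp_add]; congr 1; ring
  have h3 : Real.exp (-a) ≤ 1 := Real.exp_le_one_iff.2 (by linarith)
  have h4 := Real.exp_pos (-a)
  have h5 : Real.exp (-b) ≤ Real.exp (-a) := Real.exp_le_exp.2 (by linarith)
  rw [abs_of_nonneg (by linarith), abs_sub_comm, abs_of_nonneg (by linarith), h2]
  have h6 : Real.exp (-a) * (1 - Real.exp (-(b - a))) ≤ 1 * (b - a) := by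
    apply mul_le_mul h3 (by linarith) _ (by norm_num)
    have : Real.exp (-(b - a)) ≤ 1 := Real.exp_le_one_iff.2 (by linarith)
    linarith
  linarith

/-- the Lipschitz bound of the characteristic function -/
lemma cf_lip (hN : 1 ≤ N) (v : Fin n → ℕ) (σ : ℝ) (hσ : 0 < σ) (ξ ξ' : ℝ) :
    ‖cf N f (ξ / σ) v - cf N f (ξ' / σ) v‖ ≤ |ξ - ξ'| * ((1 + V N f v / σ ^ 2) / 2) := by
  have hN0 : (0 : ℝ) < N := by exact_mod_cast hN
  obtain ⟨S, hS⟩ : ∃ S : ℕ → ℝ, S = fun x => ∑ i, f (x + v i) := ⟨_, rfl⟩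
  have h1 : cf N f (ξ / σ) v - cf N f (ξ' / σ) v =
      (∑ x ∈ Icc 1 N, (Complex.exp (((ξ / σ * S x : ℝ) : ℂ) * Complex.I) - Complex.exp (((ξ' / σ * S x : ℝ) : ℂ) * Complex.I))) / N := by
    unfold cf avC
    rw [Nat.card_Icc, Nat.add_sub_cancel, sum_sub_distrib, sub_div, hS]
  rw [h1, norm_div, Complex.norm_natCast, div_le_iff₀ hN0]
  refine (norm_sum_le _ _).trans ?_
  have h2 : ∀ x ∈ Icc 1 N, ‖Complex.exp (((ξ / σ * S x : ℝ) : ℂ) * Complex.I) - Complex.exp (((ξ' / σ * S x : ℝ) : ℂ) * Complex.I)‖ ≤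
      |ξ - ξ'| * (1 / 2) + |ξ - ξ'| * (1 / (2 * σ ^ 2)) * S x ^ 2 := by
    intro x _
    have e1 : Complex.exp (((ξ / σ * S x : ℝ) : ℂ) * Complex.I) - Complex.exp (((ξ' / σ * S x : ℝ) : ℂ) * Complex.I) =
        Complex.exp (((ξ' / σ * S x : ℝ) : ℂ) * Complex.I) * (Complex.exp (Complex.I * (((ξ - ξ') / σ * S x : ℝ) : ℂ)) - 1) := by
      rw [mul_sub, ← Complex.exp_add, mul_one]
      congr 2
      push_cast
      ring
    rw [e1, norm_mul, Complex.norm_exp_ofReal_mul_I, one_mul]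
    refine (Real.norm_exp_I_mul_ofReal_sub_one_le).trans ?_
    rw [Real.norm_eq_abs, abs_mul, abs_div, abs_of_pos hσ]
    have e2 : |S x| / σ ≤ 1 / 2 + 1 / (2 * σ ^ 2) * S x ^ 2 := by
      have e3 : 0 ≤ (|S x| / σ - 1) ^ 2 := sq_nonneg _
      have e4 : (|S x| / σ) ^ 2 = 1 / σ ^ 2 * S x ^ 2 := by rw [div_pow, sq_abs]; ring
      have e5 : 1 / (2 * σ ^ 2) * S x ^ 2 = 1 / σ ^ 2 * S x ^ 2 / 2 := by
        field_simp
      rw [e5, ← e4]
      linarith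
    have e6 := mul_le_mul_of_nonneg_left e2 (abs_nonneg (ξ - ξ'))
    have e7 : |ξ - ξ'| / σ * |S x| = |ξ - ξ'| * (|S x| / σ) := by ring
    rw [e7]
    linarith
  refine (sum_le_sum h2).trans (le_of_eq ?_)
  rw [sum_add_distrib, sum_const, Nat.card_Icc, Nat.add_sub_cancel, nsmul_eq_mul, ← mul_sum]
  unfold V
  rw [hS]
  field_simp

/-- the grid -/
lemma grid (hN : 1 ≤ N) (v : Fin n → ℕ) (σ : ℝ) (hσ : 0 < σ) (Ξ h : ℝ) (hh : 0 < h) (hΞ : 0 ≤ Ξ) (J : ℕ) (hJ : 2 * Ξ ≤ J * h)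
    (ξ : ℝ) (hξ : |ξ| ≤ Ξ) :
    ‖cf N f (ξ / σ) v - ((Real.exp (-(ξ ^ 2 / 2)) : ℝ) : ℂ)‖ ≤ h * ((1 + V N f v / σ ^ 2) / 2 + Ξ) +
      ∑ j ∈ range (J + 1), ‖cf N f ((-Ξ + j * h) / σ) v - ((Real.exp (-((-Ξ + j * h) ^ 2 / 2)) : ℝ) : ℂ)‖ := by
  obtain ⟨g1, g2⟩ := abs_le.1 hξ
  obtain ⟨j, hj⟩ : ∃ j, j = ⌊(ξ + Ξ) / h⌋₊ := ⟨_, rfl⟩
  have h0 : 0 ≤ (ξ + Ξ) / h := div_nonneg (by linarith) hh.le
  have h1 : (j : ℝ) * h ≤ ξ + Ξ := by
    rw [← le_div_iff₀ hh, hj]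
    exact Nat.floor_le h0
  have h2 : ξ + Ξ < (j + 1) * h := by
    rw [← div_lt_iff₀ hh, hj]
    exact Nat.lt_floor_add_one _
  have hjJ : j ∈ range (J + 1) := by
    rw [mem_range, Nat.lt_succ_iff]
    have e1 : (ξ + Ξ) / h ≤ J := by
      rw [div_le_iff₀ hh]
      linarith
    rw [hj]
    exact Nat.floor_le_of_le e1
  obtain ⟨ξ', hξ'⟩ : ∃ ξ', ξ' = -Ξ + j * h := ⟨_, rfl⟩
  have h3 : |ξ - ξ'| ≤ h := by
    rw [hξ', abs_le]
    constructor <;> linarith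
  have hj0 : 0 ≤ (j : ℝ) * h := by positivity
  have h4 : |ξ'| ≤ Ξ := by
    rw [hξ', abs_le]
    constructor <;> linarith
  have hR : 0 ≤ V N f v / σ ^ 2 := div_nonneg (V_nonneg v) (by positivity)
  have e1 := cf_lip (f := f) hN v σ hσ ξ ξ'
  have e2 : |ξ - ξ'| * ((1 + V N f v / σ ^ 2) / 2) ≤ h * ((1 + V N f v / σ ^ 2) / 2) := mul_le_mul_of_nonneg_right h3 (by positivity)
  have e3 : ‖((Real.exp (-(ξ' ^ 2 / 2)) : ℝ) : ℂ) - ((Real.exp (-(ξ ^ 2 / 2)) : ℝ) : ℂ)‖ ≤ h * Ξ := by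
    rw [← Complex.ofReal_sub, Complex.norm_real, Real.norm_eq_abs]
    refine (exp_lip _ _ (by positivity) (by positivity)).trans ?_
    have e4 : ξ' ^ 2 / 2 - ξ ^ 2 / 2 = (ξ' - ξ) * ((ξ' + ξ) / 2) := by ring
    rw [e4, abs_mul, abs_sub_comm]
    apply mul_le_mul h3 _ (abs_nonneg _) hh.le
    obtain ⟨g3, g4⟩ := abs_le.1 h4
    rw [abs_le]
    constructor <;> linarith
  have e5 : ‖cf N f (ξ' / σ) v - ((Real.exp (-(ξ' ^ 2 / 2)) : ℝ) : ℂ)‖ ≤
      ∑ j ∈ range (J + 1), ‖cf N f ((-Ξ + j * h) / σ) v - ((Real.exp (-((-Ξ + j * h) ^ 2 / 2)) : ℝ) : ℂ)‖ := by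
    rw [hξ']
    exact single_le_sum (f := fun j : ℕ => ‖cf N f ((-Ξ + j * h) / σ) v - ((Real.exp (-((-Ξ + j * h) ^ 2 / 2)) : ℝ) : ℂ)‖)
      (fun _ _ => norm_nonneg _) hjJ
  have e6 : cf N f (ξ / σ) v - ((Real.exp (-(ξ ^ 2 / 2)) : ℝ) : ℂ) = (cf N f (ξ / σ) v - cf N f (ξ' / σ) v) +
      (cf N f (ξ' / σ) v - ((Real.exp (-(ξ' ^ 2 / 2)) : ℝ) : ℂ)) +
      (((Real.exp (-(ξ' ^ 2 / 2)) : ℝ) : ℂ) - ((Real.exp (-(ξ ^ 2 / 2)) : ℝ) : ℂ)) := by ring
  rw [e6]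
  have e7 := norm_add_le ((cf N f (ξ / σ) v - cf N f (ξ' / σ) v) + (cf N f (ξ' / σ) v - ((Real.exp (-(ξ' ^ 2 / 2)) : ℝ) : ℂ)))
    (((Real.exp (-(ξ' ^ 2 / 2)) : ℝ) : ℂ) - ((Real.exp (-(ξ ^ 2 / 2)) : ℝ) : ℂ))
  have e8 := norm_add_le (cf N f (ξ / σ) v - cf N f (ξ' / σ) v) (cf N f (ξ' / σ) v - ((Real.exp (-(ξ' ^ 2 / 2)) : ℝ) : ℂ))
  linarith

/-- the distribution function from the characteristic functions -/
lemma close_char (t ε Ξ δ : ℝ) (hcdf : ∀ ν : Measure ℝ, IsProbabilityMeasure ν →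
      (∀ ξ : ℝ, |ξ| ≤ Ξ → ‖charFun ν ξ - Complex.exp (-((ξ : ℂ) ^ 2 / 2))‖ ≤ δ) →
      |ν.real (Set.Iic t) - Phi t| ≤ ε) (hN : 1 ≤ N) (σ : ℝ) (hσ : 0 < σ) (v : Fin n → ℕ)
    (h : ∀ ξ : ℝ, |ξ| ≤ Ξ → ‖cf N f (ξ / σ) v - ((Real.exp (-(ξ ^ 2 / 2)) : ℝ) : ℂ)‖ ≤ δ) :
    |(((Icc 1 N).filter fun x => (∑ i, f (x + v i)) ≤ t * σ).card : ℝ) / N - Phi t| ≤ ε := by
  classical
  have hne : (Icc 1 N).Nonempty := ⟨1, by rw [mem_Icc]; omega⟩
  have h1 := hcdf (law (Icc 1 N) (fun x => (∑ i, f (x + v i)) / σ)) (law_prob hne _) (by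
    intro ξ hξ
    rw [law_charFun]
    refine le_trans (le_of_eq ?_) (h ξ hξ)
    congr 1
    have e1 : (∑ S ∈ Icc 1 N, Complex.exp ((ξ : ℂ) * (((∑ i, f (S + v i)) / σ : ℝ) : ℂ) * Complex.I)) / ((Icc 1 N).card : ℂ) =
        cf N f (ξ / σ) v := by
      unfold cf avC
      congr 1
      apply sum_congr rfl
      intro x _
      congr 2
      push_cast
      ring
    rw [e1]
    congr 1
    push_cast
    rfl)
  have h2 : (law (Icc 1 N) (fun x => (∑ i, f (x + v i)) / σ)).real (Set.Iic t) =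
      (((Icc 1 N).filter fun x => (∑ i, f (x + v i)) ≤ t * σ).card : ℝ) / N := by
    unfold Measure.real
    rw [law_apply _ _ _ measurableSet_Iic, ENNReal.toReal_mul, ENNReal.toReal_inv, ENNReal.toReal_natCast, Nat.card_Icc,
      Nat.add_sub_cancel, ENNReal.toReal_sum]
    · have e1 : ∀ x ∈ Icc 1 N, ((Set.Iic t).indicator (1 : ℝ → ENNReal) ((∑ i, f (x + v i)) / σ)).toReal =
          if (∑ i, f (x + v i)) ≤ t * σ then 1 else 0 := by
        intro x _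
        by_cases h3 : (∑ i, f (x + v i)) ≤ t * σ
        · rw [if_pos h3, Set.indicator_of_mem (by rw [Set.mem_Iic, div_le_iff₀ hσ]; exact h3)]
          simp
        · rw [if_neg h3, Set.indicator_of_notMem (by rw [Set.mem_Iic, div_le_iff₀ hσ]; exact h3)]
          simp
      rw [sum_congr rfl e1, ← sum_filter, sum_const, nsmul_eq_mul, mul_one, div_eq_inv_mul]
    · intro x _
      by_cases h3 : (∑ i, f (x + v i)) / σ ∈ Set.Iic t
      · rw [Set.indicator_of_mem h3]; simp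
      · rw [Set.indicator_of_notMem h3]; simp
  rw [h2] at h1
  exact h1

end Pool.Agent.N699.RG
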