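import Pool.Agent.N699.RG.Fin1
import Pool.Agent.N699.RG.Inp
import Pool.Agent.N699.RG.Fin0

set_option autoImplicit false

/-! The normal law for the primes at random positions. -/

namespace Pool.Agent.N699.RG
open Finset MeasureTheory
open Pool.Agent.N699.GL
open Pool.Agent.H373R2.T7
open Pool.Agent.N699.RP
open Pool.Agent.N699.GC
open Pool.Agent.W93.TD (avg_w total_w)
open Pool.Agent.N786.E (Phi cdf_close)
open ArithmeticFunction (vonMangoldt)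

open Classical in
/-- the normal law and the variance -/
theorem gauss_prime (A B : ℕ) (t ε : ℝ) (hε : 0 < ε) : ∃ W : ℕ, ∀ E : ℕ, ∃ C₀ N₀ : ℕ, ∀ N, N₀ ≤ N → ∀ n : ℕ, C₀ * Real.log N ≤ n →
    (n : ℝ) ≤ Real.log N ^ A → ∀ (Ω : Fin n → Finset ℕ) (p : Fin n → ℕ → ℝ), (∀ i, Lz B E W N (Ω i) (p i)) →
    ∑ v ∈ Fintype.piFinset Ω, (if |V N (fun m => vonMangoldt m - 1) v / (n * Real.log N) - 1| ≤ ε ∧
        |(((Icc 1 N).filter fun x => (∑ i, (vonMangoldt (x + v i) - 1)) ≤ t * Real.sqrt (n * Real.log N)).card : ℝ) / N - Phi t| ≤ ε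
      then 0 else ∏ i, p i (v i)) ≤ ε := by
  obtain ⟨Ξ, δ, hΞ, hδ, hcdf⟩ := cdf_close t ε hε
  have hΞ0 : 0 ≤ Ξ := by linarith
  obtain ⟨e1, he1⟩ : ∃ e1, e1 = min ε 1 := ⟨_, rfl⟩
  have he10 : 0 < e1 := by rw [he1]; exact lt_min hε one_pos
  have he1e : e1 ≤ ε := by rw [he1]; exact min_le_left _ _
  have he11 : e1 ≤ 1 := by rw [he1]; exact min_le_right _ _
  obtain ⟨ρ, hρ⟩ : ∃ ρ, ρ = e1 ^ 2 := ⟨_, rfl⟩
  have hρ0 : 0 < ρ := by rw [hρ]; positivity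
  have hρ1 : ρ ≤ 1 := by rw [hρ]; exact pow_le_one₀ he10.le he11
  have hρe : ρ ≤ e1 * ε := by rw [hρ]; nlinarith
  obtain ⟨h, hh⟩ : ∃ h, h = δ / (2 * (Ξ + 2)) := ⟨_, rfl⟩
  have hh0 : 0 < h := by rw [hh]; positivity
  have hh2 : h * (Ξ + 2) = δ / 2 := by
    rw [hh]
    field_simp
  obtain ⟨J, hJ⟩ := exists_nat_ge (2 * Ξ / h)
  have hJ' : 2 * Ξ ≤ J * h := by rwa [div_le_iff₀ hh0] at hJ
  obtain ⟨y, hy⟩ : ∃ y, y = ρ / 8 := ⟨_, rfl⟩
  have hy0 : 0 < y := by rw [hy]; positivity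
  obtain ⟨θ, hθ⟩ : ∃ θ, θ = min (ε * δ / (4 * (J + 1))) (y * ρ / 16) := ⟨_, rfl⟩
  have hθ0 : 0 < θ := by rw [hθ]; exact lt_min (by positivity) (by positivity)
  have hθ1 : θ ≤ ε * δ / (4 * (J + 1)) := by rw [hθ]; exact min_le_left _ _
  have hθ2 : θ ≤ y * ρ / 16 := by rw [hθ]; exact min_le_right _ _
  obtain ⟨X, hX⟩ : ∃ X, X = Ξ + J * h + 1 := ⟨_, rfl⟩
  have hX0 : 0 < X := by rw [hX]; positivity
  obtain ⟨η, hη⟩ : ∃ η, η = min (ρ / 16) (θ ^ 2 / (16 * X ^ 2)) := ⟨_, rfl⟩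
  have hη0 : 0 < η := by rw [hη]; exact lt_min (by positivity) (by positivity)
  have hη1 : η ≤ ρ / 16 := by rw [hη]; exact min_le_left _ _
  have hη2 : η ≤ θ ^ 2 / (16 * X ^ 2) := by rw [hη]; exact min_le_right _ _
  have hη3 : 16 * X ^ 2 * η ≤ θ ^ 2 := by
    rw [le_div_iff₀ (by positivity)] at hη2
    linarith
  obtain ⟨C, hC⟩ : ∃ C : ℝ, C = (6 * ((B : ℝ) + 1) + 1) ^ 2 := ⟨_, rfl⟩
  have hC0 : 0 ≤ C := by rw [hC]; positivity
  obtain ⟨c, hc⟩ : ∃ c : ℝ, c = 44 * X ^ 3 / θ ^ 2 + 1 := ⟨_, rfl⟩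
  have hc1 : 1 ≤ c := by rw [hc]; have : 0 ≤ 44 * X ^ 3 / θ ^ 2 := by positivity
                         linarith
  have hc2 : 44 * X ^ 3 ≤ c * θ ^ 2 := by
    rw [hc, add_mul, div_mul_cancel₀ _ (by positivity)]
    have : 0 ≤ 1 * θ ^ 2 := by positivity
    linarith
  obtain ⟨C₀, hC₀⟩ := exists_nat_ge (c ^ 2)
  refine ⟨2 * (A + 1) + 2, fun E => ?_⟩
  obtain ⟨n1, h1⟩ := hyp_lam B E (A + 1) (by omega) η hη0
  obtain ⟨n2, h2⟩ := ev_L' ((16 * X + 16 * X ^ 2 * C + 4 * X ^ 4) / θ ^ 2 + 32 / ρ + 1)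
  refine ⟨C₀, n1 + n2 + 1, fun N hN n hn hnA Ω p hlaw => ?_⟩
  have hN1 : 1 ≤ N := by omega
  have hN0 : (0 : ℝ) < N := by exact_mod_cast hN1
  have a2 := h2 N (by omega)
  have hyp : ∀ i, Hyp N (fun m => vonMangoldt m - 1) (Real.log N) (2 * Real.log N) (1 / Real.log N ^ (A + 1)) (η * Real.log N) C (Ω i) (p i) := by
    intro i
    rw [hC]
    exact h1 N (by omega) (Ω i) (p i) (hlaw i)
  obtain ⟨L, hL⟩ : ∃ L, L = Real.log (N : ℝ) := ⟨_, rfl⟩
  rw [← hL] at a2 hn hnA hyp ⊢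
  have q1 : 0 ≤ (16 * X + 16 * X ^ 2 * C + 4 * X ^ 4) / θ ^ 2 := by positivity
  have q2 : 0 ≤ 32 / ρ := by positivity
  have hL1 : 1 ≤ L := by linarith
  have hL0 : 0 < L := by linarith
  have hLq : 16 * X + 16 * X ^ 2 * C + 4 * X ^ 4 ≤ θ ^ 2 * L := by
    have : (16 * X + 16 * X ^ 2 * C + 4 * X ^ 4) / θ ^ 2 ≤ L := by linarith
    rw [div_le_iff₀ (by positivity)] at this
    linarith
  have hLρ : 2 / L ≤ ρ / 16 := by
    have : 32 / ρ ≤ L := by linarith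
    rw [div_le_iff₀ hρ0] at this
    rw [div_le_div_iff₀ hL0 (by norm_num)]
    linarith
  have w1 : 0 ≤ 16 * X := by positivity
  have w2 : 0 ≤ 16 * X ^ 2 * C := by positivity
  have w3 : 0 ≤ 4 * X ^ 4 := by positivity
  have hnc : c ^ 2 * L ≤ n := (mul_le_mul_of_nonneg_right hC₀ hL0.le).trans hn
  have hc21 : 1 ≤ c ^ 2 := one_le_pow₀ hc1
  have hnL : L ≤ n := by nlinarith
  have hn0 : (0 : ℝ) < n := by linarith
  obtain ⟨σ, hσ⟩ : ∃ σ, σ = Real.sqrt (n * L) := ⟨_, rfl⟩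
  have hσ2 : σ ^ 2 = n * L := by rw [hσ, Real.sq_sqrt (by positivity)]
  have hσ0 : 0 < σ := by rw [hσ]; exact Real.sqrt_pos.2 (by positivity)
  have hp : ∀ i, ∀ u ∈ Ω i, 0 ≤ p i u := fun i => (hyp i).nonneg
  have hp1 : ∀ i, ∑ u ∈ Ω i, p i u = 1 := fun i => (hyp i).sum1
  -- the characteristic function at one frequency
  have hchar : ∀ ξ : ℝ, |ξ| ≤ X → ∑ v ∈ Fintype.piFinset Ω, (∏ i, p i (v i)) *
      ‖cf N (fun m => vonMangoldt m - 1) (ξ / σ) v - ((Real.exp (-(ξ ^ 2 / 2)) : ℝ) : ℂ)‖ ≤ θ := by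
    intro ξ hξ
    have e1 := replica hN1 Ω p hyp hL0.le (by positivity) (by positivity) (by positivity) hC0 (ξ / σ)
    have e2 : n * ((ξ / σ) ^ 2 * L / 2) = ξ ^ 2 / 2 := by
      rw [div_pow, hσ2]
      field_simp
    rw [e2] at e1
    have e3 := small_PP X θ C c L η ξ n A hX0.le hθ0 hC0 hη0 (hη1.trans (by linarith)) hη3 hc1 hc2 hL1 (by linarith) (by linarith)
      (by linarith) hnc hnA hξ
    rw [← hσ] at e3
    have e4 := cs_pi Ω p hp hp1 (fun v => ‖cf N (fun m => vonMangoldt m - 1) (ξ / σ) v - ((Real.exp (-(ξ ^ 2 / 2)) : ℝ) : ℂ)‖) θ hθ0.le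
      (e1.trans e3)
    refine le_trans (le_of_eq ?_) e4
    apply sum_congr rfl
    intro v _
    rw [abs_of_nonneg (norm_nonneg _)]
  -- the variance
  have hmV : ∑ v ∈ Fintype.piFinset Ω, (∏ i, p i (v i)) * V N (fun m => vonMangoldt m - 1) v ≤ n * L * (1 + ρ / 8) := by
    refine (mean_V hN1 Ω p hyp (by positivity)).trans ?_
    have e1 : (n : ℝ) ^ 2 * (2 * L * (1 / L ^ (A + 1))) ≤ n * L * (2 / L) := by
      have e2 : (n : ℝ) * (1 / L ^ (A + 1)) ≤ 1 / L := by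
        rw [pow_succ, mul_one_div, div_le_div_iff₀ (by positivity) hL0]
        nlinarith
      calc (n : ℝ) ^ 2 * (2 * L * (1 / L ^ (A + 1))) = (n * L * 2) * (n * (1 / L ^ (A + 1))) := by ring
        _ ≤ (n * L * 2) * (1 / L) := mul_le_mul_of_nonneg_left e2 (by positivity)
        _ = _ := by ring
    have e3 : n * L * (2 / L) ≤ n * L * (ρ / 16) := mul_le_mul_of_nonneg_left hLρ (by positivity)
    have e4 : n * (η * L) ≤ n * L * (ρ / 16) := by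
      calc n * (η * L) = n * L * η := by ring
        _ ≤ _ := mul_le_mul_of_nonneg_left hη1 (by positivity)
    calc n * (L + η * L) + (n : ℝ) ^ 2 * (2 * L * (1 / L ^ (A + 1))) ≤ n * L + n * L * (ρ / 16) + n * L * (ρ / 16) := by
          rw [mul_add]
          linarith
      _ = _ := by ring
  have hdev : ∑ v ∈ Fintype.piFinset Ω, (∏ i, p i (v i)) * |V N (fun m => vonMangoldt m - 1) v / (n * L) - 1| ≤ e1 * ε / 2 := by
    obtain ⟨ξ, hξ⟩ : ∃ ξ, ξ = Real.sqrt (2 * y) := ⟨_, rfl⟩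
    have hξ2 : ξ ^ 2 = 2 * y := by rw [hξ, Real.sq_sqrt (by positivity)]
    have hξX : |ξ| ≤ X := by
      have k1 : 1 ≤ X := by
        rw [hX]
        have : 0 ≤ (J : ℝ) * h := by positivity
        linarith
      rw [hξ, abs_of_nonneg (Real.sqrt_nonneg _), Real.sqrt_le_left (by positivity), hy]
      nlinarith
    have e2 := hchar ξ hξX
    have e3 : ξ ^ 2 / 2 = y := by rw [hξ2]; ring
    rw [e3] at e2
    have e4 := dev_V hN1 Ω p hyp (n * L) (by positivity) (ξ / σ) y hy0 (by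
      rw [div_pow, hσ2, hξ2, div_mul_cancel₀ _ (by positivity)]) (ρ / 8) θ hmV e2
    refine e4.trans ?_
    have e5 : 2 * θ / y ≤ ρ / 8 := by
      rw [div_le_iff₀ hy0]
      linarith
    linarith
  have hgrid : ∑ v ∈ Fintype.piFinset Ω, (∏ i, p i (v i)) * ∑ j ∈ range (J + 1),
      ‖cf N (fun m => vonMangoldt m - 1) ((-Ξ + j * h) / σ) v - ((Real.exp (-((-Ξ + j * h) ^ 2 / 2)) : ℝ) : ℂ)‖ ≤ ε * δ / 4 := by
    simp only [mul_sum]
    rw [sum_comm]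
    have e1 : ∀ j ∈ range (J + 1), ∑ v ∈ Fintype.piFinset Ω, (∏ i, p i (v i)) *
        ‖cf N (fun m => vonMangoldt m - 1) ((-Ξ + j * h) / σ) v - ((Real.exp (-((-Ξ + j * h) ^ 2 / 2)) : ℝ) : ℂ)‖ ≤ θ := by
      intro j hj
      apply hchar
      rw [mem_range] at hj
      have k1 : (j : ℝ) ≤ J := by exact_mod_cast (by omega : j ≤ J)
      have k2 : (j : ℝ) * h ≤ J * h := mul_le_mul_of_nonneg_right k1 hh0.le
      have k3 : 0 ≤ (j : ℝ) * h := by positivity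
      rw [abs_le, hX]
      constructor <;> linarith
    refine (sum_le_sum e1).trans ?_
    rw [sum_const, card_range, nsmul_eq_mul]
    push_cast
    rw [le_div_iff₀ (by positivity)] at hθ1
    linarith
  obtain ⟨D, hD⟩ : ∃ D : (Fin n → ℕ) → ℝ, D = fun v => ∑ j ∈ range (J + 1),
      ‖cf N (fun m => vonMangoldt m - 1) ((-Ξ + j * h) / σ) v - ((Real.exp (-((-Ξ + j * h) ^ 2 / 2)) : ℝ) : ℂ)‖ := ⟨_, rfl⟩
  obtain ⟨R, hR⟩ : ∃ R : (Fin n → ℕ) → ℝ, R = fun v => V N (fun m => vonMangoldt m - 1) v / (n * L) := ⟨_, rfl⟩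
  have hgrid' : ∑ v ∈ Fintype.piFinset Ω, (∏ i, p i (v i)) * D v ≤ ε * δ / 4 := by rw [hD]; exact hgrid
  have hdev' : ∑ v ∈ Fintype.piFinset Ω, (∏ i, p i (v i)) * |R v - 1| ≤ e1 * ε / 2 := by rw [hR]; exact hdev
  have hD0 : ∀ v, 0 ≤ D v := by
    intro v
    rw [hD]
    exact sum_nonneg fun _ _ => norm_nonneg _
  have hgood : ∀ v, |R v - 1| ≤ e1 → D v ≤ δ / 2 →
      |V N (fun m => vonMangoldt m - 1) v / (n * L) - 1| ≤ ε ∧
        |(((Icc 1 N).filter fun x => (∑ i, (vonMangoldt (x + v i) - 1)) ≤ t * Real.sqrt (n * L)).card : ℝ) / N - Phi t| ≤ ε := by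
    intro v hv1 hv2
    have k0 : V N (fun m => vonMangoldt m - 1) v / (n * L) = R v := by rw [hR]
    rw [k0]
    refine ⟨hv1.trans he1e, ?_⟩
    rw [← hσ]
    apply close_char (f := fun m => vonMangoldt m - 1) t ε Ξ δ hcdf hN1 σ hσ0 v
    intro ξ hξ
    have k1 := grid (f := fun m => vonMangoldt m - 1) hN1 v σ hσ0 Ξ h hh0 hΞ0 J hJ' ξ hξ
    have k2 : V N (fun m => vonMangoldt m - 1) v / σ ^ 2 = R v := by rw [hσ2, hR]
    have k3 : ∑ j ∈ range (J + 1),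
      ‖cf N (fun m => vonMangoldt m - 1) ((-Ξ + j * h) / σ) v - ((Real.exp (-((-Ξ + j * h) ^ 2 / 2)) : ℝ) : ℂ)‖ = D v := by rw [hD]
    rw [k2, k3] at k1
    have k4 : R v ≤ 2 := by
      have := (abs_le.1 hv1).2
      linarith
    have k5 : h * ((1 + R v) / 2 + Ξ) ≤ h * (Ξ + 2) := by
      apply mul_le_mul_of_nonneg_left _ hh0.le
      linarith
    rw [hh2] at k5
    linarith
  have hfin : ∑ v ∈ Fintype.piFinset Ω, (if |V N (fun m => vonMangoldt m - 1) v / (n * L) - 1| ≤ ε ∧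
        |(((Icc 1 N).filter fun x => (∑ i, (vonMangoldt (x + v i) - 1)) ≤ t * Real.sqrt (n * L)).card : ℝ) / N - Phi t| ≤ ε
      then 0 else ∏ i, p i (v i)) ≤
      ∑ v ∈ Fintype.piFinset Ω, (1 / e1 * ((∏ i, p i (v i)) * |R v - 1|) + 2 / δ * ((∏ i, p i (v i)) * D v)) := by
    apply sum_le_sum
    intro v hv
    have hP0 : 0 ≤ ∏ i, p i (v i) := prod_nonneg fun j _ => hp j _ (Fintype.mem_piFinset.1 hv j)
    have q1 : 0 ≤ 1 / e1 * ((∏ i, p i (v i)) * |R v - 1|) := by positivity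
    have q2 : 0 ≤ 2 / δ * ((∏ i, p i (v i)) * D v) := by
      have := hD0 v
      positivity
    split_ifs with hb
    · linarith
    · by_cases c1 : |R v - 1| ≤ e1
      · have c2 : δ / 2 < D v := by
          by_contra hcon
          exact hb (hgood v c1 (not_lt.1 hcon))
        have c3 : 1 ≤ 2 / δ * D v := by
          rw [div_mul_eq_mul_div, le_div_iff₀ hδ]
          linarith
        have c4 : ∏ i, p i (v i) ≤ 2 / δ * ((∏ i, p i (v i)) * D v) := by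
          calc ∏ i, p i (v i) = (∏ i, p i (v i)) * 1 := (mul_one _).symm
            _ ≤ (∏ i, p i (v i)) * (2 / δ * D v) := mul_le_mul_of_nonneg_left c3 hP0
            _ = _ := by ring
        linarith
      · have c3 : 1 ≤ 1 / e1 * |R v - 1| := by
          rw [div_mul_eq_mul_div, le_div_iff₀ he10]
          linarith
        have c4 : ∏ i, p i (v i) ≤ 1 / e1 * ((∏ i, p i (v i)) * |R v - 1|) := by
          calc ∏ i, p i (v i) = (∏ i, p i (v i)) * 1 := (mul_one _).symm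
            _ ≤ (∏ i, p i (v i)) * (1 / e1 * |R v - 1|) := mul_le_mul_of_nonneg_left c3 hP0
            _ = _ := by ring
        linarith
  refine hfin.trans ?_
  rw [sum_add_distrib, ← mul_sum, ← mul_sum]
  calc 1 / e1 * ∑ v ∈ Fintype.piFinset Ω, (∏ i, p i (v i)) * |R v - 1| + 2 / δ * ∑ v ∈ Fintype.piFinset Ω, (∏ i, p i (v i)) * D v ≤
        1 / e1 * (e1 * ε / 2) + 2 / δ * (ε * δ / 4) :=
        add_le_add (mul_le_mul_of_nonneg_left hdev' (by positivity)) (mul_le_mul_of_nonneg_left hgrid' (by positivity))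
    _ = ε := by
        field_simp
        norm_num

end Pool.Agent.N699.RG
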