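import Pool.Agent.N699.GL.Rem
import Pool.Agent.W93.TD3

set_option autoImplicit false

/-! The characteristic function of the sum of a function over independent random positions: two replicas. -/

namespace Pool.Agent.N699.RG
open Finset
open Pool.Agent.N699.GL
open Pool.Agent.W93.TD (avg_w total_w)

lemma prod_sub {ι : Type} (s : Finset ι) (a b : ι → ℂ) (ha : ∀ i ∈ s, ‖a i‖ ≤ 1) (hb : ∀ i ∈ s, ‖b i‖ ≤ 1) :
    ‖∏ i ∈ s, a i - ∏ i ∈ s, b i‖ ≤ ∑ i ∈ s, ‖a i - b i‖ := by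
  classical
  induction s using Finset.induction_on with
  | empty => simp
  | insert j s hj ih =>
    rw [prod_insert hj, prod_insert hj, sum_insert hj]
    have h1 := ih (fun i hi => ha i (mem_insert_of_mem hi)) (fun i hi => hb i (mem_insert_of_mem hi))
    have h2 : ‖∏ i ∈ s, a i‖ ≤ 1 := by
      rw [norm_prod]
      exact prod_le_one (fun _ _ => norm_nonneg _) fun i hi => ha i (mem_insert_of_mem hi)
    have e : a j * ∏ i ∈ s, a i - b j * ∏ i ∈ s, b i = (a j - b j) * ∏ i ∈ s, a i + b j * (∏ i ∈ s, a i - ∏ i ∈ s, b i) := by ring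
    rw [e]
    refine (norm_add_le _ _).trans (add_le_add ?_ ?_)
    · rw [norm_mul]
      exact mul_le_of_le_one_right (norm_nonneg _) h2
    · rw [norm_mul]
      calc ‖b j‖ * ‖∏ i ∈ s, a i - ∏ i ∈ s, b i‖ ≤ 1 * ‖∏ i ∈ s, a i - ∏ i ∈ s, b i‖ :=
            mul_le_mul_of_nonneg_right (hb j (mem_insert_self _ _)) (norm_nonneg _)
        _ ≤ _ := by rw [one_mul]; exact h1

lemma exp_neg_two (κ : ℝ) (hκ : 0 ≤ κ) : |Real.exp (-κ) - (1 - κ)| ≤ κ ^ 2 / 2 := by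
  have h1 := Real.add_one_le_exp (-κ)
  have h2 := Real.quadratic_le_exp_of_nonneg hκ
  have h3 : Real.exp (-κ) * Real.exp κ = 1 := by rw [← Real.exp_add, neg_add_cancel, Real.exp_zero]
  have h4 := Real.exp_pos (-κ)
  have h5 : Real.exp (-κ) ≤ 1 - κ + κ ^ 2 / 2 := by
    have h6 : Real.exp (-κ) * (1 + κ + κ ^ 2 / 2) ≤ 1 := by
      calc Real.exp (-κ) * (1 + κ + κ ^ 2 / 2) ≤ Real.exp (-κ) * Real.exp κ := mul_le_mul_of_nonneg_left h2 h4.le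
        _ = 1 := h3
    have h7 : 0 < 1 + κ + κ ^ 2 / 2 := by positivity
    have h8 : 1 ≤ (1 - κ + κ ^ 2 / 2) * (1 + κ + κ ^ 2 / 2) := by nlinarith [sq_nonneg (κ ^ 2)]
    exact le_of_mul_le_mul_right (h6.trans h8) h7
  rw [abs_le]
  constructor
  · have : 0 ≤ κ ^ 2 / 2 := by positivity
    linarith
  · linarith

/-- the characteristic function of a bounded variable -/
lemma one_factor (Ω : Finset ℕ) (p : ℕ → ℝ) (hp : ∀ u ∈ Ω, 0 ≤ p u) (hp1 : ∑ u ∈ Ω, p u = 1) (Z : ℕ → ℝ) (K : ℝ)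
    (hK : ∀ u ∈ Ω, |Z u| ≤ K) (τ κ : ℝ) (hκ : 0 ≤ κ) :
    ‖∑ u ∈ Ω, ((p u : ℝ) : ℂ) * Complex.exp (((τ * Z u : ℝ) : ℂ) * Complex.I) - ((Real.exp (-κ) : ℝ) : ℂ)‖ ≤
      |τ| * |∑ u ∈ Ω, p u * Z u| + |τ ^ 2 * (∑ u ∈ Ω, p u * Z u ^ 2) / 2 - κ| + |τ| ^ 3 * K * (∑ u ∈ Ω, p u * Z u ^ 2) / 6 +
        κ ^ 2 / 2 := by
  have h1 : ∀ u ∈ Ω, ((p u : ℝ) : ℂ) * Complex.exp (((τ * Z u : ℝ) : ℂ) * Complex.I) =
      ((p u : ℝ) : ℂ) + Complex.I * ((τ * (p u * Z u) : ℝ) : ℂ) - ((τ ^ 2 / 2 * (p u * Z u ^ 2) : ℝ) : ℂ) + ((p u : ℝ) : ℂ) * rem 3 (τ * Z u) := by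
    intro u _
    unfold rem
    rw [sum_range_succ, sum_range_succ, sum_range_succ, sum_range_zero]
    have hI : Complex.I ^ 2 = -1 := Complex.I_sq
    push_cast
    simp only [Nat.factorial]
    push_cast
    linear_combination ((p u : ℂ) * ((τ : ℂ) * (Z u : ℂ)) ^ 2 / 2) * hI
  have h2 : ∑ u ∈ Ω, ((p u : ℝ) : ℂ) * Complex.exp (((τ * Z u : ℝ) : ℂ) * Complex.I) - ((Real.exp (-κ) : ℝ) : ℂ) =
      Complex.I * ((τ * ∑ u ∈ Ω, p u * Z u : ℝ) : ℂ) - ((τ ^ 2 * (∑ u ∈ Ω, p u * Z u ^ 2) / 2 - κ : ℝ) : ℂ) +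
        ∑ u ∈ Ω, ((p u : ℝ) : ℂ) * rem 3 (τ * Z u) - ((Real.exp (-κ) - (1 - κ) : ℝ) : ℂ) := by
    rw [sum_congr rfl h1, sum_add_distrib, sum_sub_distrib, sum_add_distrib, ← mul_sum]
    have e1 : ∑ u ∈ Ω, ((p u : ℝ) : ℂ) = 1 := by rw [← Complex.ofReal_sum, hp1, Complex.ofReal_one]
    have e2 : ∑ u ∈ Ω, ((τ * (p u * Z u) : ℝ) : ℂ) = ((τ * ∑ u ∈ Ω, p u * Z u : ℝ) : ℂ) := by
      rw [← Complex.ofReal_sum, mul_sum]
    have e3 : ∑ u ∈ Ω, ((τ ^ 2 / 2 * (p u * Z u ^ 2) : ℝ) : ℂ) = ((τ ^ 2 / 2 * ∑ u ∈ Ω, p u * Z u ^ 2 : ℝ) : ℂ) := by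
      rw [← Complex.ofReal_sum, mul_sum]
    rw [e1, e2, e3]
    push_cast
    ring
  rw [h2]
  refine (norm_sub_le _ _).trans (add_le_add ?_ ?_)
  · refine (norm_add_le _ _).trans (add_le_add ?_ ?_)
    · refine (norm_sub_le _ _).trans (add_le_add ?_ ?_)
      · rw [norm_mul, Complex.norm_I, one_mul, Complex.norm_real, Real.norm_eq_abs, abs_mul]
      · rw [Complex.norm_real, Real.norm_eq_abs]
    · refine (norm_sum_le _ _).trans ?_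
      rw [mul_sum, sum_div]
      apply sum_le_sum
      intro u hu
      rw [norm_mul, Complex.norm_real, Real.norm_of_nonneg (hp u hu)]
      have e1 := norm_rem_le 3 (τ * Z u)
      have e2 : ((3).factorial : ℝ) = 6 := by norm_num [Nat.factorial]
      rw [e2] at e1
      have e3 : |τ * Z u| ^ 3 ≤ |τ| ^ 3 * (K * Z u ^ 2) := by
        rw [abs_mul, mul_pow]
        apply mul_le_mul_of_nonneg_left _ (by positivity)
        rw [pow_succ, sq_abs, mul_comm]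
        exact mul_le_mul_of_nonneg_right (hK u hu) (sq_nonneg _)
      calc p u * ‖rem 3 (τ * Z u)‖ ≤ p u * (|τ| ^ 3 * (K * Z u ^ 2) / 6) := by
            apply mul_le_mul_of_nonneg_left _ (hp u hu)
            exact e1.trans (div_le_div_of_nonneg_right e3 (by norm_num))
        _ = |τ| ^ 3 * K * (p u * Z u ^ 2) / 6 := by ring
  · rw [Complex.norm_real, Real.norm_eq_abs]
    exact exp_neg_two κ hκ

lemma norm_expect_le (Ω : Finset ℕ) (p : ℕ → ℝ) (hp : ∀ u ∈ Ω, 0 ≤ p u) (hp1 : ∑ u ∈ Ω, p u = 1) (θ : ℕ → ℝ) :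
    ‖∑ u ∈ Ω, ((p u : ℝ) : ℂ) * Complex.exp (((θ u : ℝ) : ℂ) * Complex.I)‖ ≤ 1 := by
  refine (norm_sum_le _ _).trans ?_
  rw [← hp1]
  apply sum_le_sum
  intro u hu
  rw [norm_mul, Complex.norm_real, Real.norm_of_nonneg (hp u hu), Complex.norm_exp_ofReal_mul_I, mul_one]

variable {n : ℕ}

/-- the expectation of a product -/
lemma expect_prod (Ω : Fin n → Finset ℕ) (p : Fin n → ℕ → ℝ) (g : Fin n → ℕ → ℂ) :
    ∑ v ∈ Fintype.piFinset Ω, ((∏ i, p i (v i) : ℝ) : ℂ) * ∏ i, g i (v i) = ∏ i, ∑ u ∈ Ω i, ((p i u : ℝ) : ℂ) * g i u := by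
  rw [prod_univ_sum]
  apply sum_congr rfl
  intro v _
  push_cast
  rw [← prod_mul_distrib]

/-- the characteristic function of the sum over the positions -/
noncomputable def cf (N : ℕ) (f : ℕ → ℝ) (τ : ℝ) (v : Fin n → ℕ) : ℂ :=
  avC (Icc 1 N) fun x => Complex.exp (((τ * ∑ i, f (x + v i) : ℝ) : ℂ) * Complex.I)

lemma exp_sum (f : ℕ → ℝ) (τ : ℝ) (v : Fin n → ℕ) (x : ℕ) :
    Complex.exp (((τ * ∑ i, f (x + v i) : ℝ) : ℂ) * Complex.I) = ∏ i, Complex.exp (((τ * f (x + v i) : ℝ) : ℂ) * Complex.I) := by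
  rw [← Complex.exp_sum]
  congr 1
  push_cast
  rw [mul_sum, sum_mul]

lemma cf_mean (N : ℕ) (Ω : Fin n → Finset ℕ) (p : Fin n → ℕ → ℝ) (f : ℕ → ℝ) (τ : ℝ) :
    ∑ v ∈ Fintype.piFinset Ω, ((∏ i, p i (v i) : ℝ) : ℂ) * cf N f τ v =
      (∑ x ∈ Icc 1 N, ∏ i, ∑ u ∈ Ω i, ((p i u : ℝ) : ℂ) * Complex.exp (((τ * f (x + u) : ℝ) : ℂ) * Complex.I)) / N := by
  unfold cf avC
  rw [Nat.card_Icc, Nat.add_sub_cancel]
  simp only [mul_div_assoc']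
  rw [← sum_div]
  congr 1
  rw [sum_congr rfl fun v _ => mul_sum _ _ _, sum_comm]
  apply sum_congr rfl
  intro x _
  rw [← expect_prod]
  apply sum_congr rfl
  intro v _
  rw [exp_sum]

lemma cf_sq (N : ℕ) (Ω : Fin n → Finset ℕ) (p : Fin n → ℕ → ℝ) (f : ℕ → ℝ) (τ : ℝ) :
    ∑ v ∈ Fintype.piFinset Ω, ((∏ i, p i (v i) : ℝ) : ℂ) * ((‖cf N f τ v‖ ^ 2 : ℝ) : ℂ) =
      (∑ x ∈ Icc 1 N, ∑ y ∈ Icc 1 N, ∏ i, ∑ u ∈ Ω i, ((p i u : ℝ) : ℂ) *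
        Complex.exp (((τ * (f (x + u) - f (y + u)) : ℝ) : ℂ) * Complex.I)) / (N : ℂ) ^ 2 := by
  have h1 : ∀ v : Fin n → ℕ, ((‖cf N f τ v‖ ^ 2 : ℝ) : ℂ) = (∑ x ∈ Icc 1 N, ∑ y ∈ Icc 1 N,
      ∏ i, Complex.exp (((τ * (f (x + v i) - f (y + v i)) : ℝ) : ℂ) * Complex.I)) / (N : ℂ) ^ 2 := by
    intro v
    push_cast
    rw [← Complex.mul_conj']
    unfold cf avC
    rw [Nat.card_Icc, Nat.add_sub_cancel, map_div₀, Complex.conj_natCast, div_mul_div_comm, ← sq, map_sum, sum_mul_sum]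
    congr 1
    apply sum_congr rfl
    intro x _
    apply sum_congr rfl
    intro y _
    rw [← Complex.exp_conj, ← Complex.exp_add, ← Complex.exp_sum]
    congr 1
    rw [map_mul, Complex.conj_ofReal, Complex.conj_I, ← sum_mul, ← mul_sum, sum_sub_distrib]
    push_cast
    ring
  simp only [h1, mul_div_assoc']
  rw [← sum_div]
  congr 1
  rw [sum_congr rfl fun v _ => mul_sum _ _ _, sum_comm]
  apply sum_congr rfl
  intro x _
  rw [sum_congr rfl fun v _ => mul_sum _ _ _, sum_comm]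
  apply sum_congr rfl
  intro y _
  rw [← expect_prod]

end Pool.Agent.N699.RG
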