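import Pool.Agent.N699.RG.Rep

set_option autoImplicit false

/-! The replica bound for the characteristic function of the sum over independent random positions. -/

namespace Pool.Agent.N699.RG
open Finset
open Pool.Agent.N699.GL
open Pool.Agent.W93.TD (avg_w total_w)

/-- the hypotheses on the law of one position -/
structure Hyp (N : ℕ) (f : ℕ → ℝ) (s K M1 M2 M3 : ℝ) (Ω : Finset ℕ) (p : ℕ → ℝ) : Prop where
  nonneg : ∀ u ∈ Ω, 0 ≤ p u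
  sum1 : ∑ u ∈ Ω, p u = 1
  bd : ∀ x ∈ Icc 1 N, ∀ u ∈ Ω, |f (x + u)| ≤ K
  h1 : ∑ x ∈ Icc 1 N, |∑ u ∈ Ω, p u * f (x + u)| ≤ M1 * N
  h2 : ∑ x ∈ Icc 1 N, |∑ u ∈ Ω, p u * f (x + u) ^ 2 - s| ≤ M2 * N
  h3 : ∑ x ∈ Icc 1 N, ∑ y ∈ Icc 1 N, |∑ u ∈ Ω, p u * (f (x + u) * f (y + u))| ≤ M3 * N ^ 2

/-- the error -/
noncomputable def PP (s K M1 M2 M3 τ : ℝ) : ℝ :=
  2 * |τ| * M1 + τ ^ 2 * (M2 + M3) + 4 / 3 * |τ| ^ 3 * K * (s + M2) + 2 * (τ ^ 2 * s / 2) ^ 2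

variable {N : ℕ} {f : ℕ → ℝ} {s K M1 M2 M3 : ℝ} {Ω : Finset ℕ} {p : ℕ → ℝ}

lemma single_sum (hN : 1 ≤ N) (h : Hyp N f s K M1 M2 M3 Ω p) (hs : 0 ≤ s) (hK0 : 0 ≤ K) (hM1 : 0 ≤ M1) (hM2 : 0 ≤ M2)
    (hM3 : 0 ≤ M3) (τ : ℝ) :
    ∑ x ∈ Icc 1 N, ‖∑ u ∈ Ω, ((p u : ℝ) : ℂ) * Complex.exp (((τ * f (x + u) : ℝ) : ℂ) * Complex.I) -
      ((Real.exp (-(τ ^ 2 * s / 2)) : ℝ) : ℂ)‖ ≤ N * (PP s K M1 M2 M3 τ / 2) := by
  have hN0 : (0 : ℝ) < N := by exact_mod_cast hN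
  obtain ⟨κ, hκ⟩ : ∃ κ, κ = τ ^ 2 * s / 2 := ⟨_, rfl⟩
  have hκ0 : 0 ≤ κ := by rw [hκ]; positivity
  have e1 : ∀ x ∈ Icc 1 N, ‖∑ u ∈ Ω, ((p u : ℝ) : ℂ) * Complex.exp (((τ * f (x + u) : ℝ) : ℂ) * Complex.I) -
      ((Real.exp (-κ) : ℝ) : ℂ)‖ ≤ |τ| * |∑ u ∈ Ω, p u * f (x + u)| + (τ ^ 2 / 2 + |τ| ^ 3 * K / 6) * |∑ u ∈ Ω, p u * f (x + u) ^ 2 - s| +
        (|τ| ^ 3 * K * s / 6 + κ ^ 2 / 2) := by
    intro x hx
    have e2 := one_factor Ω p h.nonneg h.sum1 (fun u => f (x + u)) K (h.bd x hx) τ κ hκ0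
    refine e2.trans ?_
    obtain ⟨q, hq⟩ : ∃ q, q = ∑ u ∈ Ω, p u * f (x + u) ^ 2 := ⟨_, rfl⟩
    rw [← hq]
    have e3 : |τ ^ 2 * q / 2 - κ| = τ ^ 2 / 2 * |q - s| := by
      rw [hκ, show τ ^ 2 * q / 2 - τ ^ 2 * s / 2 = τ ^ 2 / 2 * (q - s) by ring, abs_mul, abs_of_nonneg (show 0 ≤ τ ^ 2 / 2 by positivity)]
    have e4 : q ≤ s + |q - s| := by linarith [le_abs_self (q - s)]
    have e5 : |τ| ^ 3 * K * q / 6 ≤ |τ| ^ 3 * K / 6 * (s + |q - s|) := by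
      calc |τ| ^ 3 * K * q / 6 = |τ| ^ 3 * K / 6 * q := by ring
        _ ≤ _ := mul_le_mul_of_nonneg_left e4 (by positivity)
    rw [e3]
    linarith
  rw [← hκ]
  refine (sum_le_sum e1).trans ?_
  rw [sum_add_distrib, sum_add_distrib, ← mul_sum, ← mul_sum, sum_const, Nat.card_Icc, Nat.add_sub_cancel, nsmul_eq_mul]
  have e2 := mul_le_mul_of_nonneg_left h.h1 (abs_nonneg τ)
  have e3 := mul_le_mul_of_nonneg_left h.h2 (show 0 ≤ τ ^ 2 / 2 + |τ| ^ 3 * K / 6 by positivity)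
  have e4 : |τ| * (M1 * N) + (τ ^ 2 / 2 + |τ| ^ 3 * K / 6) * (M2 * N) + N * (|τ| ^ 3 * K * s / 6 + κ ^ 2 / 2) ≤ N * (PP s K M1 M2 M3 τ / 2) := by
    unfold PP
    rw [← hκ]
    have f1 : 0 ≤ N * (τ ^ 2 * M3) := by positivity
    have f2 : 0 ≤ N * (|τ| ^ 3 * K * (s + M2)) := by positivity
    have f3 : 0 ≤ N * κ ^ 2 := by positivity
    nlinarith
  linarith

lemma pair_sum (h : Hyp N f s K M1 M2 M3 Ω p) (hs : 0 ≤ s) (hK0 : 0 ≤ K) (τ : ℝ) :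
    ∑ x ∈ Icc 1 N, ∑ y ∈ Icc 1 N, ‖∑ u ∈ Ω, ((p u : ℝ) : ℂ) * Complex.exp (((τ * (f (x + u) - f (y + u)) : ℝ) : ℂ) * Complex.I) -
      ((Real.exp (-(2 * (τ ^ 2 * s / 2))) : ℝ) : ℂ)‖ ≤ N ^ 2 * PP s K M1 M2 M3 τ := by
  obtain ⟨κ, hκ⟩ : ∃ κ, κ = τ ^ 2 * s / 2 := ⟨_, rfl⟩
  have hκ0 : 0 ≤ κ := by rw [hκ]; positivity
  obtain ⟨a, ha⟩ : ∃ a : ℕ → ℝ, a = fun x => ∑ u ∈ Ω, p u * f (x + u) := ⟨_, rfl⟩
  obtain ⟨q, hq⟩ : ∃ q : ℕ → ℝ, q = fun x => ∑ u ∈ Ω, p u * f (x + u) ^ 2 := ⟨_, rfl⟩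
  obtain ⟨r, hr⟩ : ∃ r : ℕ → ℕ → ℝ, r = fun x y => ∑ u ∈ Ω, p u * (f (x + u) * f (y + u)) := ⟨_, rfl⟩
  have hq0 : ∀ x, 0 ≤ q x := by
    intro x
    rw [hq]
    exact sum_nonneg fun u hu => mul_nonneg (h.nonneg u hu) (sq_nonneg _)
  have e1 : ∀ x ∈ Icc 1 N, ∀ y ∈ Icc 1 N, ‖∑ u ∈ Ω, ((p u : ℝ) : ℂ) * Complex.exp (((τ * (f (x + u) - f (y + u)) : ℝ) : ℂ) * Complex.I) -
      ((Real.exp (-(2 * κ)) : ℝ) : ℂ)‖ ≤ |τ| * (|a x| + |a y|) + (τ ^ 2 / 2 + 2 / 3 * |τ| ^ 3 * K) * (|q x - s| + |q y - s|) +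
        τ ^ 2 * |r x y| + (4 / 3 * |τ| ^ 3 * K * s + 2 * κ ^ 2) := by
    intro x hx y hy
    have e2 := one_factor Ω p h.nonneg h.sum1 (fun u => f (x + u) - f (y + u)) (2 * K) (by
      intro u hu
      have g1 := h.bd x hx u hu
      have g2 := h.bd y hy u hu
      rw [abs_le] at g1 g2 ⊢
      constructor <;> linarith [g1.1, g1.2, g2.1, g2.2]) τ (2 * κ) (by positivity)
    refine e2.trans ?_
    have e3 : ∑ u ∈ Ω, p u * (f (x + u) - f (y + u)) = a x - a y := by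
      rw [ha]
      simp only [mul_sub, sum_sub_distrib]
    have e4 : ∑ u ∈ Ω, p u * (f (x + u) - f (y + u)) ^ 2 = q x + q y - 2 * r x y := by
      rw [hq, hr]
      simp only
      rw [← sum_add_distrib, mul_sum, ← sum_sub_distrib]
      exact sum_congr rfl fun u _ => by ring
    have e5 : ∑ u ∈ Ω, p u * (f (x + u) - f (y + u)) ^ 2 ≤ 2 * (q x + q y) := by
      rw [hq]
      simp only
      rw [← sum_add_distrib, mul_sum]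
      apply sum_le_sum
      intro u hu
      nlinarith [mul_nonneg (h.nonneg u hu) (sq_nonneg (f (x + u) + f (y + u)))]
    have e6 : |τ| ^ 3 * (2 * K) * (∑ u ∈ Ω, p u * (f (x + u) - f (y + u)) ^ 2) / 6 ≤
        |τ| ^ 3 * (2 * K) * (2 * ((s + |q x - s|) + (s + |q y - s|))) / 6 := by
      apply div_le_div_of_nonneg_right _ (by norm_num)
      apply mul_le_mul_of_nonneg_left _ (by positivity)
      refine e5.trans ?_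
      linarith [le_abs_self (q x - s), le_abs_self (q y - s)]
    have e7 : |τ ^ 2 * (∑ u ∈ Ω, p u * (f (x + u) - f (y + u)) ^ 2) / 2 - 2 * κ| ≤ τ ^ 2 / 2 * (|q x - s| + |q y - s|) + τ ^ 2 * |r x y| := by
      rw [e4, hκ, show τ ^ 2 * (q x + q y - 2 * r x y) / 2 - 2 * (τ ^ 2 * s / 2) =
        τ ^ 2 / 2 * (q x - s) + τ ^ 2 / 2 * (q y - s) - τ ^ 2 * r x y by ring]
      refine (abs_sub _ _).trans ?_
      have g1 := abs_add_le (τ ^ 2 / 2 * (q x - s)) (τ ^ 2 / 2 * (q y - s))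
      rw [abs_mul, abs_mul, abs_of_nonneg (show 0 ≤ τ ^ 2 / 2 by positivity)] at g1
      rw [abs_mul (τ ^ 2), abs_of_nonneg (show 0 ≤ τ ^ 2 by positivity)]
      linarith
    have e8 : |τ| * |∑ u ∈ Ω, p u * (f (x + u) - f (y + u))| ≤ |τ| * (|a x| + |a y|) := by
      rw [e3]
      exact mul_le_mul_of_nonneg_left (abs_sub _ _) (abs_nonneg _)
    have e9 : (2 * κ) ^ 2 / 2 = 2 * κ ^ 2 := by ring
    rw [e9]
    linarith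
  rw [← hκ]
  refine (sum_le_sum fun x hx => sum_le_sum fun y hy => e1 x hx y hy).trans ?_
  have h1' : ∑ x ∈ Icc 1 N, |a x| ≤ M1 * N := by rw [ha]; exact h.h1
  have h2' : ∑ x ∈ Icc 1 N, |q x - s| ≤ M2 * N := by rw [hq]; exact h.h2
  have h3' : ∑ x ∈ Icc 1 N, ∑ y ∈ Icc 1 N, |r x y| ≤ M3 * N ^ 2 := by rw [hr]; exact h.h3
  have e3 : ∑ x ∈ Icc 1 N, ∑ y ∈ Icc 1 N, (|τ| * (|a x| + |a y|) + (τ ^ 2 / 2 + 2 / 3 * |τ| ^ 3 * K) * (|q x - s| + |q y - s|) +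
        τ ^ 2 * |r x y| + (4 / 3 * |τ| ^ 3 * K * s + 2 * κ ^ 2)) =
      |τ| * (2 * N * ∑ x ∈ Icc 1 N, |a x|) + (τ ^ 2 / 2 + 2 / 3 * |τ| ^ 3 * K) * (2 * N * ∑ x ∈ Icc 1 N, |q x - s|) +
        τ ^ 2 * ∑ x ∈ Icc 1 N, ∑ y ∈ Icc 1 N, |r x y| + N ^ 2 * (4 / 3 * |τ| ^ 3 * K * s + 2 * κ ^ 2) := by
    simp only [sum_add_distrib, ← mul_sum, sum_const, Nat.card_Icc, Nat.add_sub_cancel, nsmul_eq_mul]
    ring
  rw [e3]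
  have g1 : |τ| * (2 * N * ∑ x ∈ Icc 1 N, |a x|) ≤ |τ| * (2 * N * (M1 * N)) :=
    mul_le_mul_of_nonneg_left (mul_le_mul_of_nonneg_left h1' (by positivity)) (abs_nonneg _)
  have g2 : (τ ^ 2 / 2 + 2 / 3 * |τ| ^ 3 * K) * (2 * N * ∑ x ∈ Icc 1 N, |q x - s|) ≤ (τ ^ 2 / 2 + 2 / 3 * |τ| ^ 3 * K) * (2 * N * (M2 * N)) :=
    mul_le_mul_of_nonneg_left (mul_le_mul_of_nonneg_left h2' (by positivity)) (by positivity)
  have g3 : τ ^ 2 * ∑ x ∈ Icc 1 N, ∑ y ∈ Icc 1 N, |r x y| ≤ τ ^ 2 * (M3 * N ^ 2) := mul_le_mul_of_nonneg_left h3' (sq_nonneg _)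
  refine (add_le_add (add_le_add (add_le_add g1 g2) g3) le_rfl).trans (le_of_eq ?_)
  unfold PP
  rw [← hκ]
  ring

variable {n : ℕ}

/-- the mean -/
lemma cf_mean_close (hN : 1 ≤ N) (Ω : Fin n → Finset ℕ) (p : Fin n → ℕ → ℝ) (h : ∀ i, Hyp N f s K M1 M2 M3 (Ω i) (p i))
    (hs : 0 ≤ s) (hK0 : 0 ≤ K) (hM1 : 0 ≤ M1) (hM2 : 0 ≤ M2) (hM3 : 0 ≤ M3) (τ : ℝ) :
    ‖∑ v ∈ Fintype.piFinset Ω, ((∏ i, p i (v i) : ℝ) : ℂ) * cf N f τ v - ((Real.exp (-(n * (τ ^ 2 * s / 2))) : ℝ) : ℂ)‖ ≤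
      n * (PP s K M1 M2 M3 τ / 2) := by
  have hN0 : (0 : ℝ) < N := by exact_mod_cast hN
  have hNc : (N : ℂ) ≠ 0 := by exact_mod_cast hN0.ne'
  rw [cf_mean]
  have e1 : ((Real.exp (-(n * (τ ^ 2 * s / 2))) : ℝ) : ℂ) = ∏ _i : Fin n, ((Real.exp (-(τ ^ 2 * s / 2)) : ℝ) : ℂ) := by
    rw [prod_const, card_univ, Fintype.card_fin, ← Complex.ofReal_pow, ← Real.exp_nat_mul]
    congr 2
    ring
  have e2 : (∑ x ∈ Icc 1 N, ∏ i, ∑ u ∈ Ω i, ((p i u : ℝ) : ℂ) * Complex.exp (((τ * f (x + u) : ℝ) : ℂ) * Complex.I)) / N -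
      ∏ _i : Fin n, ((Real.exp (-(τ ^ 2 * s / 2)) : ℝ) : ℂ) =
      (∑ x ∈ Icc 1 N, (∏ i, ∑ u ∈ Ω i, ((p i u : ℝ) : ℂ) * Complex.exp (((τ * f (x + u) : ℝ) : ℂ) * Complex.I) -
        ∏ _i : Fin n, ((Real.exp (-(τ ^ 2 * s / 2)) : ℝ) : ℂ))) / N := by
    rw [sum_sub_distrib, sum_const, Nat.card_Icc, Nat.add_sub_cancel, nsmul_eq_mul, sub_div, mul_div_cancel_left₀ _ hNc]
  rw [e1, e2, norm_div, Complex.norm_natCast, div_le_iff₀ hN0]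
  refine (norm_sum_le _ _).trans ?_
  have e3 : ∀ x ∈ Icc 1 N, ‖∏ i, ∑ u ∈ Ω i, ((p i u : ℝ) : ℂ) * Complex.exp (((τ * f (x + u) : ℝ) : ℂ) * Complex.I) -
        ∏ _i : Fin n, ((Real.exp (-(τ ^ 2 * s / 2)) : ℝ) : ℂ)‖ ≤
      ∑ i : Fin n, ‖∑ u ∈ Ω i, ((p i u : ℝ) : ℂ) * Complex.exp (((τ * f (x + u) : ℝ) : ℂ) * Complex.I) -
        ((Real.exp (-(τ ^ 2 * s / 2)) : ℝ) : ℂ)‖ := by
    intro x _
    apply prod_sub
    · intro i _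
      exact norm_expect_le _ _ (h i).nonneg (h i).sum1 fun u => τ * f (x + u)
    · intro i _
      rw [Complex.norm_real, Real.norm_of_nonneg (Real.exp_pos _).le]
      apply Real.exp_le_one_iff.2
      have : 0 ≤ τ ^ 2 * s / 2 := by positivity
      linarith
  refine (sum_le_sum e3).trans ?_
  rw [sum_comm]
  refine (sum_le_sum fun i _ => single_sum hN (h i) hs hK0 hM1 hM2 hM3 τ).trans (le_of_eq ?_)
  rw [sum_const, card_univ, Fintype.card_fin, nsmul_eq_mul]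
  ring

/-- the mean square -/
lemma cf_sq_close (hN : 1 ≤ N) (Ω : Fin n → Finset ℕ) (p : Fin n → ℕ → ℝ) (h : ∀ i, Hyp N f s K M1 M2 M3 (Ω i) (p i))
    (hs : 0 ≤ s) (hK0 : 0 ≤ K) (τ : ℝ) :
    ‖∑ v ∈ Fintype.piFinset Ω, ((∏ i, p i (v i) : ℝ) : ℂ) * ((‖cf N f τ v‖ ^ 2 : ℝ) : ℂ) -
      ((Real.exp (-(n * (2 * (τ ^ 2 * s / 2)))) : ℝ) : ℂ)‖ ≤ n * PP s K M1 M2 M3 τ := by
  have hN0 : (0 : ℝ) < N := by exact_mod_cast hN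
  have hNc : (N : ℂ) ≠ 0 := by exact_mod_cast hN0.ne'
  have hNc2 : (N : ℂ) ^ 2 ≠ 0 := pow_ne_zero _ hNc
  rw [cf_sq]
  have e1 : ((Real.exp (-(n * (2 * (τ ^ 2 * s / 2)))) : ℝ) : ℂ) = ∏ _i : Fin n, ((Real.exp (-(2 * (τ ^ 2 * s / 2))) : ℝ) : ℂ) := by
    rw [prod_const, card_univ, Fintype.card_fin, ← Complex.ofReal_pow, ← Real.exp_nat_mul]
    congr 2
    ring
  obtain ⟨c, hc⟩ : ∃ c : ℂ, c = ∏ _i : Fin n, ((Real.exp (-(2 * (τ ^ 2 * s / 2))) : ℝ) : ℂ) := ⟨_, rfl⟩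
  have e2 : (∑ x ∈ Icc 1 N, ∑ y ∈ Icc 1 N, ∏ i, ∑ u ∈ Ω i, ((p i u : ℝ) : ℂ) *
        Complex.exp (((τ * (f (x + u) - f (y + u)) : ℝ) : ℂ) * Complex.I)) / (N : ℂ) ^ 2 - c =
      (∑ x ∈ Icc 1 N, ∑ y ∈ Icc 1 N, (∏ i, ∑ u ∈ Ω i, ((p i u : ℝ) : ℂ) *
        Complex.exp (((τ * (f (x + u) - f (y + u)) : ℝ) : ℂ) * Complex.I) - c)) / (N : ℂ) ^ 2 := by
    simp only [sum_sub_distrib, sum_const, Nat.card_Icc, Nat.add_sub_cancel, nsmul_eq_mul]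
    rw [sub_div, show (N : ℂ) * ((N : ℂ) * c) = (N : ℂ) ^ 2 * c by ring, mul_div_cancel_left₀ _ hNc2]
  rw [e1, ← hc, e2, norm_div, norm_pow, Complex.norm_natCast, div_le_iff₀ (by positivity)]
  refine (norm_sum_le _ _).trans ((sum_le_sum fun x _ => norm_sum_le _ _).trans ?_)
  have e3 : ∀ x ∈ Icc 1 N, ∀ y ∈ Icc 1 N, ‖∏ i, ∑ u ∈ Ω i, ((p i u : ℝ) : ℂ) *
        Complex.exp (((τ * (f (x + u) - f (y + u)) : ℝ) : ℂ) * Complex.I) - c‖ ≤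
      ∑ i : Fin n, ‖∑ u ∈ Ω i, ((p i u : ℝ) : ℂ) *
        Complex.exp (((τ * (f (x + u) - f (y + u)) : ℝ) : ℂ) * Complex.I) - ((Real.exp (-(2 * (τ ^ 2 * s / 2))) : ℝ) : ℂ)‖ := by
    intro x _ y _
    rw [hc]
    apply prod_sub
    · intro i _
      exact norm_expect_le _ _ (h i).nonneg (h i).sum1 fun u => τ * (f (x + u) - f (y + u))
    · intro i _
      rw [Complex.norm_real, Real.norm_of_nonneg (Real.exp_pos _).le]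
      apply Real.exp_le_one_iff.2
      have : 0 ≤ τ ^ 2 * s / 2 := by positivity
      linarith
  refine (sum_le_sum fun x hx => sum_le_sum fun y hy => e3 x hx y hy).trans ?_
  have e4 : ∑ x ∈ Icc 1 N, ∑ y ∈ Icc 1 N, ∑ i : Fin n, ‖∑ u ∈ Ω i, ((p i u : ℝ) : ℂ) *
        Complex.exp (((τ * (f (x + u) - f (y + u)) : ℝ) : ℂ) * Complex.I) - ((Real.exp (-(2 * (τ ^ 2 * s / 2))) : ℝ) : ℂ)‖ =
      ∑ i : Fin n, ∑ x ∈ Icc 1 N, ∑ y ∈ Icc 1 N, ‖∑ u ∈ Ω i, ((p i u : ℝ) : ℂ) *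
        Complex.exp (((τ * (f (x + u) - f (y + u)) : ℝ) : ℂ) * Complex.I) - ((Real.exp (-(2 * (τ ^ 2 * s / 2))) : ℝ) : ℂ)‖ := by
    rw [sum_congr rfl fun x _ => sum_comm, sum_comm]
  rw [e4]
  refine (sum_le_sum fun i _ => pair_sum (h i) hs hK0 τ).trans (le_of_eq ?_)
  rw [sum_const, card_univ, Fintype.card_fin, nsmul_eq_mul]
  ring

/-- the replica bound -/
theorem replica (hN : 1 ≤ N) (Ω : Fin n → Finset ℕ) (p : Fin n → ℕ → ℝ) (h : ∀ i, Hyp N f s K M1 M2 M3 (Ω i) (p i))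
    (hs : 0 ≤ s) (hK0 : 0 ≤ K) (hM1 : 0 ≤ M1) (hM2 : 0 ≤ M2) (hM3 : 0 ≤ M3) (τ : ℝ) :
    ∑ v ∈ Fintype.piFinset Ω, (∏ i, p i (v i)) * ‖cf N f τ v - ((Real.exp (-(n * (τ ^ 2 * s / 2))) : ℝ) : ℂ)‖ ^ 2 ≤
      2 * n * PP s K M1 M2 M3 τ := by
  obtain ⟨c, hc⟩ : ∃ c : ℝ, c = Real.exp (-(n * (τ ^ 2 * s / 2))) := ⟨_, rfl⟩
  have hc0 : 0 < c := by rw [hc]; exact Real.exp_pos _
  have hc1 : c ≤ 1 := by
    rw [hc]
    apply Real.exp_le_one_iff.2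
    have : 0 ≤ n * (τ ^ 2 * s / 2) := by positivity
    linarith
  have hP0 : 0 ≤ PP s K M1 M2 M3 τ := by
    unfold PP
    positivity
  have h1 := cf_mean_close hN Ω p h hs hK0 hM1 hM2 hM3 τ
  have h2 := cf_sq_close hN Ω p h hs hK0 τ
  rw [← hc] at h1 ⊢
  have hc2 : Real.exp (-(n * (2 * (τ ^ 2 * s / 2)))) = c ^ 2 := by
    rw [hc, ← Real.exp_nat_mul]
    congr 1
    push_cast
    ring
  rw [hc2] at h2
  have e1 : ∀ v ∈ Fintype.piFinset Ω, (∏ i, p i (v i)) * ‖cf N f τ v - (c : ℂ)‖ ^ 2 =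
      (∏ i, p i (v i)) * ‖cf N f τ v‖ ^ 2 - 2 * c * ((∏ i, p i (v i)) * (cf N f τ v).re) + c ^ 2 * ∏ i, p i (v i) := by
    intro v _
    have : ‖cf N f τ v - (c : ℂ)‖ ^ 2 = ‖cf N f τ v‖ ^ 2 - 2 * c * (cf N f τ v).re + c ^ 2 := by
      rw [← Complex.normSq_eq_norm_sq, ← Complex.normSq_eq_norm_sq, Complex.normSq_apply, Complex.normSq_apply]
      simp only [Complex.sub_re, Complex.sub_im, Complex.ofReal_re, Complex.ofReal_im, sub_zero]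
      ring
    rw [this]
    ring
  have htot : ∑ v ∈ Fintype.piFinset Ω, ∏ i, p i (v i) = 1 := by
    rw [← prod_univ_sum]
    exact prod_eq_one fun i _ => (h i).sum1
  rw [sum_congr rfl e1, sum_add_distrib, sum_sub_distrib, ← mul_sum, ← mul_sum, htot]
  have e2 : ∑ v ∈ Fintype.piFinset Ω, (∏ i, p i (v i)) * (cf N f τ v).re =
      (∑ v ∈ Fintype.piFinset Ω, ((∏ i, p i (v i) : ℝ) : ℂ) * cf N f τ v).re := by
    rw [Complex.re_sum]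
    apply sum_congr rfl
    intro v _
    rw [Complex.re_ofReal_mul]
  have e3 : |∑ v ∈ Fintype.piFinset Ω, (∏ i, p i (v i)) * (cf N f τ v).re - c| ≤ n * (PP s K M1 M2 M3 τ / 2) := by
    refine le_trans ?_ h1
    rw [e2]
    have := Complex.abs_re_le_norm (∑ v ∈ Fintype.piFinset Ω, ((∏ i, p i (v i) : ℝ) : ℂ) * cf N f τ v - ((c : ℝ) : ℂ))
    rw [Complex.sub_re, Complex.ofReal_re] at this
    exact this
  have e4 : |∑ v ∈ Fintype.piFinset Ω, (∏ i, p i (v i)) * ‖cf N f τ v‖ ^ 2 - c ^ 2| ≤ n * PP s K M1 M2 M3 τ := by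
    refine le_trans (le_of_eq ?_) h2
    rw [← Real.norm_eq_abs, ← Complex.norm_real]
    congr 1
    push_cast
    rfl
  obtain ⟨g1, g2⟩ := abs_le.1 e3
  obtain ⟨g3, g4⟩ := abs_le.1 e4
  have hn0 : (0 : ℝ) ≤ n := Nat.cast_nonneg _
  have e5 : c * (n * (PP s K M1 M2 M3 τ / 2)) ≤ 1 * (n * (PP s K M1 M2 M3 τ / 2)) :=
    mul_le_mul_of_nonneg_right hc1 (by positivity)
  nlinarith

end Pool.Agent.N699.RG
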